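import Pool.Agent.H669.PS.Core

set_option autoImplicit false

/-! # The balance between the elements of a set and the starting points of dense windows -/

namespace Pool.Agent.H669.PS

/-- the number of elements of `A` in `(x, x + H]` -/
noncomputable def count (A : Set ℕ) (x H : ℝ) : ℝ :=
  ({a : ℕ | a ∈ A ∧ x < a ∧ (a : ℝ) ≤ x + H}.ncard : ℝ)

/-- the integers `n` for which some window `(n, n + h]` contains more than `μ h / log n`
elements of `A` -/
def dense (A : Set ℕ) (μ : ℝ) : Set ℕ :=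
  {n : ℕ | ∃ h : ℝ, 0 < h ∧ μ * h / Real.log n < count A n h}

lemma count_eq (A : Set ℕ) {x H : ℝ} (hx : 0 ≤ x) (hH : 0 ≤ H) :
    count A x H = nc A ⌊x⌋₊ ⌊x + H⌋₊ := by
  classical
  unfold count nc
  rw [← Set.ncard_coe_finset]
  congr 2
  ext a
  simp only [Set.mem_ofPred_eq, Finset.coe_filter, Finset.mem_Ioc]
  constructor
  · rintro ⟨h1, h2, h3⟩
    exact ⟨⟨(Nat.floor_lt hx).mpr h2, Nat.le_floor h3⟩, h1⟩
  · rintro ⟨⟨h1, h2⟩, h3⟩
    exact ⟨h3, (Nat.floor_lt hx).mp h1, (Nat.le_floor_iff (by linarith)).mp h2⟩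

lemma count_nat (A : Set ℕ) {z w : ℕ} (h : z ≤ w) :
    count A z ((w : ℝ) - z) = nc A z w := by
  have h1 : (z : ℝ) ≤ w := by exact_mod_cast h
  rw [count_eq A (Nat.cast_nonneg _) (by linarith)]
  simp

lemma mem_dense {A : Set ℕ} {μ : ℝ} (hμ : 0 < μ) {n : ℕ} (hn : 2 ≤ n) :
    n ∈ dense A μ ↔ ∃ m, n < m ∧ μ * ((m : ℝ) - n) < nc A n m * Real.log n := by
  have hn1 : (1 : ℝ) < n := by exact_mod_cast hn
  have hl : 0 < Real.log n := Real.log_pos hn1
  constructor
  · rintro ⟨h, h0, h1⟩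
    rw [count_eq A (Nat.cast_nonneg _) h0.le, Nat.floor_natCast, div_lt_iff₀ hl] at h1
    have h2 : (⌊(n : ℝ) + h⌋₊ : ℝ) ≤ n + h := Nat.floor_le (by positivity)
    refine ⟨⌊(n : ℝ) + h⌋₊, ?_, ?_⟩
    · by_contra h3
      have h4 : nc A n ⌊(n : ℝ) + h⌋₊ = 0 := by
        have := nc_le A n ⌊(n : ℝ) + h⌋₊
        omega
      rw [h4] at h1
      simp only [Nat.cast_zero, zero_mul] at h1
      have := mul_pos hμ h0
      linarith
    · refine lt_of_le_of_lt ?_ h1
      apply mul_le_mul_of_nonneg_left _ hμ.le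
      linarith
  · rintro ⟨m, hm, h1⟩
    have hm' : (n : ℝ) < m := by exact_mod_cast hm
    refine ⟨(m : ℝ) - n, by linarith, ?_⟩
    rw [count_nat A hm.le, div_lt_iff₀ hl]
    exact h1

lemma not_mem_dense {A : Set ℕ} {μ : ℝ} (hμ : 0 < μ) {n : ℕ} (hn : 2 ≤ n)
    (h : n ∉ dense A μ) (m : ℕ) (hm : n ≤ m) : nc A n m * Real.log n ≤ μ * ((m : ℝ) - n) := by
  rcases Nat.eq_or_lt_of_le hm with rfl | h1
  · rw [nc_self]; simp
  · by_contra h2
    exact h ((mem_dense hμ hn).mpr ⟨m, h1, not_le.mp h2⟩)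

open Classical in
/-- dense integers in `[z, w)` -/
noncomputable def dI (A : Set ℕ) (μ : ℝ) (z w : ℕ) : Finset ℕ :=
  (Finset.Ico z w).filter (· ∈ dense A μ)

lemma dI_le (A : Set ℕ) (μ : ℝ) (z w : ℕ) : (dI A μ z w).card ≤ nc (dense A μ) z w + 1 := by
  classical
  have h : dI A μ z w ⊆ insert z ((Finset.Ioc z w).filter (· ∈ dense A μ)) := by
    intro x hx
    rw [dI, Finset.mem_filter, Finset.mem_Ico] at hx
    rw [Finset.mem_insert, Finset.mem_filter, Finset.mem_Ioc]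
    by_cases h1 : x = z
    · exact Or.inl h1
    · exact Or.inr ⟨⟨by omega, by omega⟩, hx.2⟩
  refine (Finset.card_le_card h).trans ((Finset.card_insert_le _ _).trans ?_)
  exact le_rfl

lemma le_dI (A : Set ℕ) (μ : ℝ) (z w : ℕ) : nc (dense A μ) z w ≤ (dI A μ z w).card + 1 := by
  classical
  have h : (Finset.Ioc z w).filter (· ∈ dense A μ) ⊆ insert w (dI A μ z w) := by
    intro x hx
    rw [Finset.mem_filter, Finset.mem_Ioc] at hx
    rw [Finset.mem_insert, dI, Finset.mem_filter, Finset.mem_Ico]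
    by_cases h1 : x = w
    · exact Or.inl h1
    · exact Or.inr ⟨⟨by omega, by omega⟩, hx.2⟩
  exact (Finset.card_le_card h).trans (Finset.card_insert_le _ _)

lemma dI_eq {A : Set ℕ} {μ : ℝ} {z w : ℕ} (hz : z ∉ dense A μ) (hw : w ∉ dense A μ) :
    (dI A μ z w).card = nc (dense A μ) z w := by
  classical
  unfold dI nc
  congr 1
  ext x
  simp only [Finset.mem_filter, Finset.mem_Ico, Finset.mem_Ioc]
  constructor
  · rintro ⟨⟨h1, h2⟩, h3⟩
    refine ⟨⟨lt_of_le_of_ne h1 ?_, h2.le⟩, h3⟩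
    rintro rfl
    exact hz h3
  · rintro ⟨⟨h1, h2⟩, h3⟩
    refine ⟨⟨h1.le, lt_of_le_of_ne h2 ?_⟩, h3⟩
    rintro rfl
    exact hw h3

lemma ds_sub_dI {A : Set ℕ} {μ : ℝ} (hμ : 0 < μ) {z w : ℕ} (hz : 2 ≤ z) :
    ds A (μ / Real.log z) z w ⊆ dI A μ z w := by
  classical
  intro n hn
  rw [ds, Finset.mem_filter, Finset.mem_Ico] at hn
  obtain ⟨⟨h1, h2⟩, m, h3, h4, h5⟩ := hn
  rw [dI, Finset.mem_filter, Finset.mem_Ico]
  refine ⟨⟨h1, h2⟩, (mem_dense hμ (by omega)).mpr ⟨m, h3, ?_⟩⟩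
  have hz1 : (1 : ℝ) < z := by exact_mod_cast hz
  have hl : 0 < Real.log z := Real.log_pos hz1
  have hzn : Real.log z ≤ Real.log n := Real.log_le_log (by linarith) (by exact_mod_cast h1)
  rw [div_mul_eq_mul_div, div_lt_iff₀ hl] at h5
  exact h5.trans_le (mul_le_mul_of_nonneg_left hzn (Nat.cast_nonneg _))

/-- **Balance**, first half. -/
lemma balance_lower {A : Set ℕ} {μ : ℝ} (hμ : 0 < μ) {z w : ℕ} (hz2 : 2 ≤ z) (hzw : z ≤ w)
    (hz : z ∉ dense A μ) (hw : w ∉ dense A μ) :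
    μ * nc (dense A μ) z w ≤ nc A z w * Real.log w := by
  classical
  have hw1 : (1 : ℝ) < w := by exact_mod_cast (by omega : 1 < w)
  have hlw : 0 < Real.log w := Real.log_pos hw1
  have h := lowerN A (μ / Real.log w) (by positivity) hzw
  have hsub : dI A μ z w ⊆ ds A (μ / Real.log w) z w := by
    intro n hn
    rw [dI, Finset.mem_filter, Finset.mem_Ico] at hn
    obtain ⟨⟨h1, h2⟩, h3⟩ := hn
    rw [ds, Finset.mem_filter, Finset.mem_Ico]
    refine ⟨⟨h1, h2⟩, ?_⟩
    obtain ⟨m, hm, h4⟩ := (mem_dense hμ (by omega)).mp h3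
    have hn1 : (1 : ℝ) < n := by exact_mod_cast (by omega : 1 < n)
    have hln : Real.log n ≤ Real.log w := Real.log_le_log (by linarith) (by exact_mod_cast h2.le)
    have hln0 : 0 < Real.log n := Real.log_pos hn1
    by_cases hmw : m ≤ w
    · refine ⟨m, hm, hmw, ?_⟩
      rw [div_mul_eq_mul_div, div_lt_iff₀ hlw]
      exact h4.trans_le (mul_le_mul_of_nonneg_left hln (Nat.cast_nonneg _))
    · push Not at hmw
      refine ⟨w, h2, le_rfl, ?_⟩
      rw [div_mul_eq_mul_div, div_lt_iff₀ hlw]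
      have h5 := not_mem_dense hμ (by omega) hw m hmw.le
      have h6 : (nc A n m : ℝ) = nc A n w + nc A w m := by
        exact_mod_cast (nc_add (A := A) h2.le hmw.le).symm
      have h7 : (nc A n m : ℝ) * Real.log n ≤ nc A n m * Real.log w :=
        mul_le_mul_of_nonneg_left hln (Nat.cast_nonneg _)
      rw [h6] at h4 h7
      nlinarith
  have h2 : ((dI A μ z w).card : ℝ) ≤ (ds A (μ / Real.log w) z w).card := by
    exact_mod_cast Finset.card_le_card hsub
  rw [dI_eq hz hw] at h2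
  have h3 : μ / Real.log w * (nc (dense A μ) z w : ℝ) ≤ nc A z w :=
    (mul_le_mul_of_nonneg_left h2 (by positivity)).trans h
  rwa [div_mul_eq_mul_div, div_le_iff₀ hlw] at h3

/-- **Balance**, second half. -/
lemma balance_upper {A : Set ℕ} {μ : ℝ} (hμ : 0 < μ) {z w : ℕ} (hz2 : 2 ≤ z) (hzw : z ≤ w)
    (hz : z ∉ dense A μ) (hw : w ∉ dense A μ) :
    nc A z w * (Real.log z - μ) ≤ μ * nc (dense A μ) z w := by
  classical
  have hz1 : (1 : ℝ) < z := by exact_mod_cast (by omega : 1 < z)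
  have hlz : 0 < Real.log z := Real.log_pos hz1
  have h := upperN A (μ / Real.log z) 0 (by positivity) le_rfl hzw (by
    intro m h1 h2
    rw [add_zero, div_mul_eq_mul_div, le_div_iff₀ hlz]
    exact not_mem_dense hμ hz2 hz m h1.le)
  have h2 : ((ds A (μ / Real.log z) z w).card : ℝ) ≤ (dI A μ z w).card := by
    exact_mod_cast Finset.card_le_card (ds_sub_dI hμ hz2)
  rw [dI_eq hz hw] at h2
  have h3 := mul_le_mul_of_nonneg_left h2 (by positivity : 0 ≤ μ / Real.log z)
  have h4 : (nc A z w : ℝ) ≤ μ / Real.log z * nc (dense A μ) z w +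
      μ / Real.log z * nc A z w := by linarith
  have h5 : (nc A z w : ℝ) * Real.log z ≤ μ * nc (dense A μ) z w + μ * nc A z w := by
    rw [div_mul_eq_mul_div, div_mul_eq_mul_div, ← add_div, le_div_iff₀ hlz] at h4
    exact h4
  linarith

/-- Comparison under macroscopic control, first half. -/
lemma macro_lower {A : Set ℕ} {μ Y : ℝ} (hμ : 0 < μ) (hY : 0 ≤ Y) {u v : ℕ} (hu : 2 ≤ u)
    (huv : u ≤ v)
    (hm : ∀ n m : ℕ, u ≤ n → n ≤ v → (n : ℝ) + Y ≤ m → nc A n m * Real.log n ≤ μ * ((m : ℝ) - n)) :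
    μ * nc (dense A μ) u v ≤ nc A u v * Real.log v + μ * (Y + 2) := by
  classical
  have hv1 : (1 : ℝ) < v := by exact_mod_cast (by omega : 1 < v)
  have hlv : 0 < Real.log v := Real.log_pos hv1
  have h := lowerN A (μ / Real.log v) (by positivity) huv
  -- the dense integers below `v - Y`
  have hsub : dI A μ u v ⊆ ds A (μ / Real.log v) u v ∪
      (Finset.Ico u v).filter (fun n => (v : ℝ) < n + Y) := by
    intro n hn
    rw [dI, Finset.mem_filter, Finset.mem_Ico] at hn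
    obtain ⟨⟨h1, h2⟩, h3⟩ := hn
    rw [Finset.mem_union, Finset.mem_filter, ds, Finset.mem_filter, Finset.mem_Ico]
    by_cases h4 : (v : ℝ) < n + Y
    · exact Or.inr ⟨⟨h1, h2⟩, h4⟩
    left
    refine ⟨⟨h1, h2⟩, ?_⟩
    obtain ⟨m, hm1, h5⟩ := (mem_dense hμ (by omega)).mp h3
    have hn1 : (1 : ℝ) < n := by exact_mod_cast (by omega : 1 < n)
    have hln : Real.log n ≤ Real.log v := Real.log_le_log (by linarith) (by exact_mod_cast h2.le)
    refine ⟨m, hm1, ?_, ?_⟩
    · by_contra h6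
      push Not at h6
      have h7 : (v : ℝ) < m := by exact_mod_cast h6
      have := hm n m h1 h2.le (by linarith)
      linarith
    · rw [div_mul_eq_mul_div, div_lt_iff₀ hlv]
      exact h5.trans_le (mul_le_mul_of_nonneg_left hln (Nat.cast_nonneg _))
  have hend : (((Finset.Ico u v).filter (fun n : ℕ => (v : ℝ) < n + Y)).card : ℝ) ≤ Y + 1 := by
    have h1 : (Finset.Ico u v).filter (fun n : ℕ => (v : ℝ) < n + Y) ⊆
        Finset.Ico (v - ⌊Y⌋₊) v := by
      intro n hn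
      rw [Finset.mem_filter, Finset.mem_Ico] at hn
      rw [Finset.mem_Ico]
      refine ⟨?_, hn.1.2⟩
      have h2 : ((v - n : ℕ) : ℝ) ≤ Y := by
        rw [Nat.cast_sub hn.1.2.le]; linarith [hn.2]
      have := Nat.le_floor h2
      omega
    have h2 := Finset.card_le_card h1
    rw [Nat.card_Ico] at h2
    have h3 : (((Finset.Ico u v).filter (fun n : ℕ => (v : ℝ) < n + Y)).card : ℝ) ≤ ⌊Y⌋₊ := by
      exact_mod_cast h2.trans (by omega)
    have := Nat.floor_le hY
    linarith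
  have h2 : ((dI A μ u v).card : ℝ) ≤ (ds A (μ / Real.log v) u v).card + (Y + 1) := by
    have h3 := (Finset.card_le_card hsub).trans (Finset.card_union_le _ _)
    have h4 : ((dI A μ u v).card : ℝ) ≤ (ds A (μ / Real.log v) u v).card +
        (((Finset.Ico u v).filter (fun n : ℕ => (v : ℝ) < n + Y)).card : ℝ) := by
      exact_mod_cast h3
    linarith
  have h3 : (nc (dense A μ) u v : ℝ) ≤ (dI A μ u v).card + 1 := by exact_mod_cast le_dI A μ u v
  rw [div_mul_eq_mul_div, div_le_iff₀ hlv] at h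
  nlinarith

/-- Comparison under macroscopic control, second half. -/
lemma macro_upper {A : Set ℕ} {μ Y : ℝ} (hμ : 0 < μ) (hY : 0 ≤ Y) {u v : ℕ} (hu : 2 ≤ u)
    (huv : u ≤ v)
    (hm : ∀ m : ℕ, (u : ℝ) + Y ≤ m → nc A u m * Real.log u ≤ μ * ((m : ℝ) - u)) :
    nc A u v * Real.log u ≤ μ * nc (dense A μ) u v + μ + Y * Real.log u + μ * nc A u v := by
  classical
  have hu1 : (1 : ℝ) < u := by exact_mod_cast (by omega : 1 < u)
  have hlu : 0 < Real.log u := Real.log_pos hu1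
  have h := upperN A (μ / Real.log u) Y (by positivity) hY huv (by
    intro m h1 h2
    have h1' : (u : ℝ) < m := by exact_mod_cast h1
    by_cases h3 : (u : ℝ) + Y ≤ m
    · have h4 := hm m h3
      have h5 : (nc A u m : ℝ) ≤ μ / Real.log u * ((m : ℝ) - u) := by
        rw [div_mul_eq_mul_div, le_div_iff₀ hlu]; exact h4
      linarith
    · have h4 := nc_le_real A h1.le
      have h5 : 0 ≤ μ / Real.log u * ((m : ℝ) - u) :=
        mul_nonneg (by positivity) (by linarith)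
      linarith)
  have h2 : ((ds A (μ / Real.log u) u v).card : ℝ) ≤ (dI A μ u v).card := by
    exact_mod_cast Finset.card_le_card (ds_sub_dI hμ hu)
  have h3 : ((dI A μ u v).card : ℝ) ≤ nc (dense A μ) u v + 1 := by exact_mod_cast dI_le A μ u v
  have h4 := mul_le_mul_of_nonneg_left (h2.trans h3) (by positivity : 0 ≤ μ / Real.log u)
  have h5 : (nc A u v : ℝ) ≤ μ / Real.log u * (nc (dense A μ) u v + 1) + Y +
      μ / Real.log u * nc A u v := by linarith
  have h6 := mul_le_mul_of_nonneg_right h5 hlu.le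
  have h7 : (μ / Real.log u * (nc (dense A μ) u v + 1) + Y +
      μ / Real.log u * nc A u v) * Real.log u =
      μ * (nc (dense A μ) u v + 1) + Y * Real.log u + μ * nc A u v := by
    field_simp
  rw [h7] at h6
  linarith

end Pool.Agent.H669.PS
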