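import Pool.Agent.H669.PS.Eq

set_option autoImplicit false

/-! # The law implies the asymptotic formula -/

open Filter Topology

namespace Pool.Agent.H669.PS

/-- a point which starts no dense window, in every interval of length at least `y ^ ε₁` -/
lemma exists_nd {A : Set ℕ} {κ μ ε₁ : ℝ} (hκ : 0 ≤ κ) (hμ : κ < μ) (h : Law A κ μ ε₁) :
    ∃ X K₀ : ℝ, ∀ y K : ℝ, X ≤ y → y ^ ε₁ ≤ K → K ≤ y → K₀ ≤ K →
      ∃ n : ℕ, y < n ∧ (n : ℝ) ≤ y + K ∧ n ∉ dense A μ := by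
  classical
  have hμ0 : 0 < μ := by linarith
  have hμ1 : κ / μ < 1 := by rw [div_lt_one hμ0]; exact hμ
  have hμ2 : 0 ≤ κ / μ := by positivity
  obtain ⟨X, hX⟩ := h ((1 - κ / μ) / 2) (by linarith)
  refine ⟨max X 0, 3 / (1 - κ / μ), fun y K hy hK1 hK2 hK3 => ?_⟩
  by_contra hcon
  push Not at hcon
  have hy0 : 0 ≤ y := (le_max_right _ _).trans hy
  have hK0 : 0 < K := lt_of_lt_of_le (by apply div_pos (by norm_num); linarith) hK3
  have h1 := hX y K ((le_max_left _ _).trans hy) hK1 hK2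
  rw [count_eq _ hy0 hK0.le] at h1
  have h2 : nc (dense A μ) ⌊y⌋₊ ⌊y + K⌋₊ = ⌊y + K⌋₊ - ⌊y⌋₊ := by
    unfold nc
    rw [Finset.filter_true_of_mem, Nat.card_Ioc]
    intro n hn
    rw [Finset.mem_Ioc] at hn
    exact hcon n ((Nat.floor_lt hy0).mp hn.1) ((Nat.le_floor_iff (by linarith)).mp hn.2)
  have h3 : K - 1 ≤ (nc (dense A μ) ⌊y⌋₊ ⌊y + K⌋₊ : ℝ) := by
    rw [h2, Nat.cast_sub (Nat.floor_le_floor (by linarith))]
    have h4 := Nat.floor_le hy0
    have h5 := Nat.lt_floor_add_one (y + K)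
    linarith
  have h4 := (abs_le.mp h1).2
  have h5 : (nc (dense A μ) ⌊y⌋₊ ⌊y + K⌋₊ : ℝ) / K ≤ (1 + κ / μ) / 2 := by linarith
  rw [div_le_iff₀ hK0] at h5
  have h6 : 3 ≤ (1 - κ / μ) * K := by
    rw [div_le_iff₀ (by linarith)] at hK3
    linarith
  nlinarith

set_option maxHeartbeats 1000000 in
theorem asym_of_law {A : Set ℕ} {κ μ θ : ℝ} (hκ : 0 ≤ κ) (hμ : κ < μ) (hθ : 0 ≤ θ)
    (h : ∀ ε, θ < ε → ε ≤ 1 → Law A κ μ ε) : ∀ ε, θ < ε → ε ≤ 1 → Asym A κ ε := by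
  classical
  intro ε h1 h2 δ₀ hδ₀
  have hμ0 : 0 < μ := by linarith
  obtain ⟨δ, hδ, hδ1, hδμ, hδδ⟩ : ∃ δ : ℝ, 0 < δ ∧ δ ≤ 1 ∧ δ ≤ μ ∧ δ ≤ δ₀ :=
    ⟨min δ₀ (min 1 μ), by positivity, (min_le_right _ _).trans (min_le_left _ _),
      (min_le_right _ _).trans (min_le_right _ _), min_le_left _ _⟩
  obtain ⟨ε₁, he1, he2⟩ : ∃ ε₁, θ < ε₁ ∧ ε₁ < ε := exists_between h1
  obtain ⟨η, hη⟩ : ∃ η, η = δ / (16 * μ) := ⟨_, rfl⟩
  have hη0 : 0 < η := by rw [hη]; positivity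
  have hη1 : η ≤ 1 / 16 := by
    rw [hη, div_le_div_iff₀ (by positivity) (by norm_num)]
    linarith
  have hμη : μ * η = δ / 16 := by rw [hη]; field_simp
  obtain ⟨X1, K₀, hnd⟩ := exists_nd hκ hμ (h ε₁ he1 (by linarith))
  obtain ⟨X2, hX2⟩ := h ε h1 h2 (δ / (8 * μ)) (by positivity)
  have hev1 : ∀ᶠ x : ℝ in atTop, (2 * x) ^ ε₁ ≤ η * x ^ ε := by
    have hpos : 0 < ε - ε₁ := by linarith
    have h3 := (tendsto_rpow_atTop hpos).eventually_ge_atTop (2 ^ ε₁ / η)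
    filter_upwards [h3, eventually_ge_atTop (1 : ℝ)] with x hx hx1
    have hx0 : 0 < x := by linarith
    rw [div_le_iff₀ hη0] at hx
    have h7 : x ^ ε = x ^ ε₁ * x ^ (ε - ε₁) := by
      rw [← Real.rpow_add hx0]; congr 1; ring
    rw [Real.mul_rpow (by norm_num) hx0.le, h7]
    have h8 : 0 < x ^ ε₁ := Real.rpow_pos_of_pos hx0 _
    nlinarith
  have hev2 : ∀ᶠ x : ℝ in atTop, max K₀ (16 * μ / δ + 1) / η ≤ x ^ ε :=
    (tendsto_rpow_atTop (by linarith : 0 < ε)).eventually_ge_atTop _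
  have hev := hev1.and (hev2.and ((eventually_ge_atTop (max (max (2 * X1) X2) 8)).and
    (Real.tendsto_log_atTop.eventually_ge_atTop (8 * (1 + μ) * (κ + 1) / δ + 1 + μ))))
  obtain ⟨X, hX⟩ := eventually_atTop.mp hev
  refine ⟨X, fun x H hx hxH hHx => ?_⟩
  obtain ⟨e1, e2, e3, e4⟩ := hX x hx
  have hx1 : 2 * X1 ≤ x := ((le_max_left _ _).trans (le_max_left _ _)).trans e3
  have hx2 : X2 ≤ x := ((le_max_right _ _).trans (le_max_left _ _)).trans e3
  have hx8 : 8 ≤ x := (le_max_right _ _).trans e3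
  have hx0 : 0 < x := by linarith
  have hH0 : 0 < H := lt_of_lt_of_le (Real.rpow_pos_of_pos hx0 _) hxH
  obtain ⟨K, hK⟩ : ∃ K, K = η * H := ⟨_, rfl⟩
  have hK1 : (2 * x) ^ ε₁ ≤ K := by
    rw [hK]; exact e1.trans (mul_le_mul_of_nonneg_left hxH hη0.le)
  have hKH : K ≤ H / 16 := by rw [hK]; nlinarith
  have hK0 : 0 < K := by rw [hK]; positivity
  have hKK : max K₀ (16 * μ / δ + 1) ≤ K := by
    rw [div_le_iff₀ hη0] at e2
    rw [hK]
    nlinarith
  have hKK0 : K₀ ≤ K := (le_max_left _ _).trans hKK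
  have hKK1 : 16 * μ / δ + 1 ≤ K := (le_max_right _ _).trans hKK
  have hmu : 16 * μ ≤ δ * H := by
    have h3 : 16 * μ / δ ≤ H := by linarith
    rw [div_le_iff₀ hδ] at h3
    linarith
  have hpt : ∀ y : ℝ, x / 2 ≤ y → y ≤ 2 * x →
      ∃ n : ℕ, y < n ∧ (n : ℝ) ≤ y + K ∧ n ∉ dense A μ := by
    intro y hy1 hy2
    apply hnd y K (by linarith) _ (by linarith) hKK0
    refine le_trans ?_ hK1
    exact Real.rpow_le_rpow (by linarith) hy2 (by linarith)
  obtain ⟨z1, z11, z12, z13⟩ := hpt x (by linarith) (by linarith)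
  obtain ⟨w1, w11, w12, w13⟩ := hpt (x + H - K) (by linarith) (by linarith)
  obtain ⟨z2, z21, z22, z23⟩ := hpt (x - K) (by linarith) (by linarith)
  obtain ⟨w2, w21, w22, w23⟩ := hpt (x + H) (by linarith) (by linarith)
  have h3 := hX2 x H hx2 hxH hHx
  obtain ⟨L, hL⟩ : ∃ L, L = Real.log x := ⟨_, rfl⟩
  rw [← hL] at e4 ⊢
  obtain ⟨u, hu⟩ : ∃ u, u = ⌊x⌋₊ := ⟨_, rfl⟩
  obtain ⟨v, hv⟩ : ∃ v, v = ⌊x + H⌋₊ := ⟨_, rfl⟩
  have hux : (u : ℝ) ≤ x := by rw [hu]; exact Nat.floor_le hx0.le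
  have hxu : x < u + 1 := by rw [hu]; exact Nat.lt_floor_add_one x
  have hvx : (v : ℝ) ≤ x + H := by rw [hv]; exact Nat.floor_le (by linarith)
  have hxv : x + H < v + 1 := by rw [hv]; exact Nat.lt_floor_add_one _
  rw [count_eq _ hx0.le hH0.le, ← hu, ← hv] at h3 ⊢
  have hu0 : u ≤ z1 := by
    have : (u : ℝ) ≤ z1 := by linarith
    exact_mod_cast this
  have hz1w1 : z1 ≤ w1 := by
    have : (z1 : ℝ) ≤ w1 := by linarith
    exact_mod_cast this
  have hw1v : w1 ≤ v := by rw [hv]; exact Nat.le_floor (by linarith)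
  have hz2u : z2 ≤ u := by rw [hu]; exact Nat.le_floor (by linarith)
  have hvw2 : v ≤ w2 := by
    have : (v : ℝ) ≤ w2 := by linarith
    exact_mod_cast this
  have huv : u ≤ v := by rw [hu, hv]; exact Nat.floor_le_floor (by linarith)
  have hz22 : 2 ≤ z2 := by
    have : (2 : ℝ) ≤ z2 := by linarith
    exact_mod_cast this
  have hz12 : 2 ≤ z1 := by
    have : (2 : ℝ) ≤ z1 := by linarith
    exact_mod_cast this
  have hw1pos : (0 : ℝ) < w1 := by
    have : (z1 : ℝ) ≤ w1 := by exact_mod_cast hz1w1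
    have h5 : (2 : ℝ) ≤ z1 := by exact_mod_cast hz12
    linarith
  have hz2pos : (0 : ℝ) < z2 := by
    have h5 : (2 : ℝ) ≤ z2 := by exact_mod_cast hz22
    linarith
  have hlog2 : Real.log 2 ≤ 1 := by
    have := Real.log_two_lt_d9; linarith
  have hlw : Real.log w1 ≤ L + 1 := by
    have : Real.log w1 ≤ Real.log (2 * x) := Real.log_le_log hw1pos (by linarith)
    rw [Real.log_mul (by norm_num) hx0.ne', ← hL] at this
    linarith
  have hlz : L - 1 ≤ Real.log z2 := by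
    have : Real.log (x / 2) ≤ Real.log z2 := Real.log_le_log (by positivity) (by linarith)
    rw [Real.log_div hx0.ne' (by norm_num), ← hL] at this
    linarith
  have b1 := balance_lower hμ0 hz12 hz1w1 z13 w13
  have b2 := balance_upper hμ0 hz22 (by omega : z2 ≤ w2) z23 w23
  -- comparison of the intervals
  have c1 : (nc (dense A μ) u v : ℝ) ≤ nc (dense A μ) z1 w1 + 2 * K + 1 := by
    have h5 : (nc (dense A μ) u v : ℝ) =
        nc (dense A μ) u z1 + nc (dense A μ) z1 w1 + nc (dense A μ) w1 v := by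
      rw [← nc_add (A := dense A μ) hu0 (hz1w1.trans hw1v), ← nc_add (A := dense A μ) hz1w1 hw1v]
      push_cast; ring
    have h6 := nc_le_real (dense A μ) hu0
    have h7 := nc_le_real (dense A μ) hw1v
    linarith
  have c2 : (nc A z1 w1 : ℝ) ≤ nc A u v := by exact_mod_cast nc_mono hu0 hw1v
  have c3 : (nc A u v : ℝ) ≤ nc A z2 w2 := by exact_mod_cast nc_mono hz2u hvw2
  have c4 : (nc (dense A μ) z2 w2 : ℝ) ≤ nc (dense A μ) u v + 2 * K + 1 := by
    have h5 : (nc (dense A μ) z2 w2 : ℝ) =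
        nc (dense A μ) z2 u + nc (dense A μ) u v + nc (dense A μ) v w2 := by
      rw [← nc_add (A := dense A μ) hz2u (huv.trans hvw2), ← nc_add (A := dense A μ) huv hvw2]
      push_cast; ring
    have h6 := nc_le_real (dense A μ) hz2u
    have h7 := nc_le_real (dense A μ) hvw2
    linarith
  obtain ⟨D, hD⟩ : ∃ D : ℝ, D = nc (dense A μ) u v := ⟨_, rfl⟩
  obtain ⟨C, hC⟩ : ∃ C : ℝ, C = nc A u v := ⟨_, rfl⟩
  rw [← hD] at c1 c4 h3
  rw [← hC] at c2 c3 ⊢
  have hC0 : 0 ≤ C := by rw [hC]; positivity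
  have hDb := abs_le.mp h3
  have hD1 : κ * H - δ / 8 * H ≤ μ * D := by
    have h5 : κ / μ - δ / (8 * μ) ≤ D / H := by linarith [hDb.1]
    rw [le_div_iff₀ hH0] at h5
    have h6 := mul_le_mul_of_nonneg_left h5 hμ0.le
    have h7 : μ * ((κ / μ - δ / (8 * μ)) * H) = κ * H - δ / 8 * H := by field_simp
    linarith
  have hD2 : μ * D ≤ κ * H + δ / 8 * H := by
    have h5 : D / H ≤ κ / μ + δ / (8 * μ) := by linarith [hDb.2]
    rw [div_le_iff₀ hH0] at h5
    have h6 := mul_le_mul_of_nonneg_left h5 hμ0.le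
    have h7 : μ * ((κ / μ + δ / (8 * μ)) * H) = κ * H + δ / 8 * H := by field_simp
    linarith
  have hμK : μ * (2 * K + 1) ≤ δ / 8 * H + δ / 16 * H := by
    have : μ * (2 * K + 1) = 2 * (μ * η) * H + μ := by rw [hK]; ring
    rw [this, hμη]
    linarith
  -- lower bound
  have l1 : κ * H - 3 * δ / 8 * H ≤ C * (L + 1) := by
    have h5 : μ * D ≤ μ * nc (dense A μ) z1 w1 + μ * (2 * K + 1) := by
      rw [← mul_add]; exact mul_le_mul_of_nonneg_left (by linarith) hμ0.le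
    have h6 : (nc A z1 w1 : ℝ) * Real.log w1 ≤ C * (L + 1) := by
      have hlw0 : 0 ≤ Real.log w1 := by
        apply Real.log_nonneg
        have : (2 : ℝ) ≤ z1 := by exact_mod_cast hz12
        have : (z1 : ℝ) ≤ w1 := by exact_mod_cast hz1w1
        linarith
      exact mul_le_mul c2 hlw hlw0 hC0
    have h7 : 0 ≤ δ * H := by positivity
    linarith
  have hL1 : 8 * (1 + μ) * (κ + 1) / δ ≤ L - 1 - μ := by linarith
  have hL0 : 0 < L - 1 - μ := lt_of_lt_of_le (by positivity) hL1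
  -- upper bound
  have l2 : C * (L - 1 - μ) ≤ κ * H + 3 * δ / 8 * H := by
    have h5 : μ * nc (dense A μ) z2 w2 ≤ μ * D + μ * (2 * K + 1) := by
      rw [← mul_add]; exact mul_le_mul_of_nonneg_left (by linarith) hμ0.le
    have h6 : C * (L - 1 - μ) ≤ nc A z2 w2 * (Real.log z2 - μ) :=
      mul_le_mul c3 (by linarith) hL0.le (Nat.cast_nonneg _)
    have h7 : 0 ≤ δ * H := by positivity
    linarith
  have l3 : (1 + μ) * C ≤ δ / 8 * H := by
    have h5 : 8 * (1 + μ) * (κ + 1) ≤ (L - 1 - μ) * δ := by rwa [div_le_iff₀ hδ] at hL1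
    have h6 : 8 * (1 + μ) * (κ + 1) * C ≤ (L - 1 - μ) * δ * C :=
      mul_le_mul_of_nonneg_right h5 hC0
    have h7 : δ * (C * (L - 1 - μ)) ≤ δ * ((κ + 1) * H) := by
      apply mul_le_mul_of_nonneg_left _ hδ.le
      have h8 : δ * H ≤ 1 * H := mul_le_mul_of_nonneg_right hδ1 hH0.le
      linarith
    have h8 : (κ + 1) * ((1 + μ) * C) ≤ (κ + 1) * (δ / 8 * H) := by linarith
    exact le_of_mul_le_mul_left h8 (by linarith)
  have hμC : 0 ≤ μ * C := by positivity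
  have hf1 : C * L ≤ (κ + δ) * H := by
    have h7 : 0 ≤ δ * H := by positivity
    linarith
  have hf2 : (κ - δ) * H ≤ C * L := by
    have h7 : 0 ≤ δ * H := by positivity
    linarith
  rw [abs_le]
  have g1 : C * L / H ≤ κ + δ := by rw [div_le_iff₀ hH0]; exact hf1
  have g2 : κ - δ ≤ C * L / H := by rw [le_div_iff₀ hH0]; exact hf2
  constructor <;> linarith

end Pool.Agent.H669.PS
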