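import Mathlib

set_option autoImplicit false

/-! # The discrete rising sun lemma with a workload -/

namespace Pool.Agent.H669.PS

open Classical in
/-- number of elements of `A` in `(a, b]` -/
noncomputable def nc (A : Set ℕ) (a b : ℕ) : ℕ := ((Finset.Ioc a b).filter (· ∈ A)).card

open Classical in
/-- integers `n` in `[z, w)` which start a window `(n, m]`, `m ≤ w`, of density more than `τ` -/
noncomputable def ds (A : Set ℕ) (τ : ℝ) (z w : ℕ) : Finset ℕ :=
  (Finset.Ico z w).filter (fun n => ∃ m, n < m ∧ m ≤ w ∧ τ * ((m : ℝ) - n) < nc A n m)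

lemma nc_self (A : Set ℕ) (a : ℕ) : nc A a a = 0 := by simp [nc]

lemma nc_add {A : Set ℕ} {a b c : ℕ} (hab : a ≤ b) (hbc : b ≤ c) :
    nc A a b + nc A b c = nc A a c := by
  classical
  unfold nc
  rw [← Finset.card_union_of_disjoint]
  · congr 1
    rw [← Finset.filter_union, Finset.Ioc_union_Ioc_eq_Ioc hab hbc]
  · apply Finset.disjoint_filter_filter
    rw [Finset.disjoint_left]
    intro x hx hx'
    rw [Finset.mem_Ioc] at hx hx'
    omega

lemma nc_le (A : Set ℕ) (a b : ℕ) : nc A a b ≤ b - a := by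
  classical
  unfold nc
  refine (Finset.card_filter_le _ _).trans ?_
  rw [Nat.card_Ioc]

lemma nc_le_real (A : Set ℕ) {a b : ℕ} (h : a ≤ b) : (nc A a b : ℝ) ≤ (b : ℝ) - a := by
  have h1 := nc_le A a b
  have h2 : (nc A a b : ℝ) ≤ ((b - a : ℕ) : ℝ) := by exact_mod_cast h1
  rwa [Nat.cast_sub h] at h2

lemma nc_mono_set {A B : Set ℕ} (h : A ⊆ B) (a b : ℕ) : nc A a b ≤ nc B a b := by
  classical
  unfold nc
  apply Finset.card_le_card
  intro x hx
  rw [Finset.mem_filter] at hx ⊢
  exact ⟨hx.1, h hx.2⟩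

open Classical in
lemma nc_one (A : Set ℕ) (n : ℕ) : (nc A n (n + 1) : ℝ) = if n + 1 ∈ A then 1 else 0 := by
  unfold nc
  rw [Nat.Ioc_succ_singleton, Finset.filter_singleton]
  split_ifs <;> simp

lemma nc_mono {A : Set ℕ} {a b a' b' : ℕ} (ha : a' ≤ a) (hb : b ≤ b') :
    nc A a b ≤ nc A a' b' := by
  classical
  unfold nc
  exact Finset.card_le_card (Finset.filter_subset_filter _ (Finset.Ioc_subset_Ioc ha hb))

/-- The workload induction. -/
lemma core (A : Set ℕ) (τ : ℝ) (h0 : 0 < τ) (h1 : τ < 1) (w : ℕ) :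
    ∀ k n : ℕ, n + k = w → ∃ R : ℝ, ∃ c : ℕ, 0 ≤ R ∧
      (∀ m, n ≤ m → m ≤ w → (nc A n m : ℝ) - τ * ((m : ℝ) - n) ≤ R) ∧
      (∃ m, n ≤ m ∧ m ≤ w ∧ R = (nc A n m : ℝ) - τ * ((m : ℝ) - n)) ∧
      τ * ((ds A τ n w).card : ℝ) + R ≤ nc A n w ∧
      (nc A n w : ℝ) ≤ τ * ((ds A τ n w).card : ℝ) + R + τ * c ∧
      (c : ℝ) + (if 0 < R then 1 else 0) ≤ nc A n w := by
  classical
  intro k
  induction k with
  | zero =>
    intro n hn
    obtain rfl : n = w := by omega
    refine ⟨0, 0, le_rfl, ?_, ⟨n, le_rfl, le_rfl, ?_⟩, ?_, ?_, ?_⟩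
    · intro m h1 h2
      obtain rfl : m = n := by omega
      simp [nc_self]
    · simp [nc_self]
    · simp [nc_self, ds]
    · simp [nc_self, ds]
    · simp [nc_self]
  | succ k ih =>
    intro n hn
    obtain ⟨R', c', hR0, hRb, ⟨m0, hm0, hm0w, hRm⟩, hL, hU, hC⟩ := ih (n + 1) (by omega)
    have hnw : n < w := by omega
    obtain ⟨a, ha⟩ : ∃ a : ℝ, a = if n + 1 ∈ A then 1 else 0 := ⟨_, rfl⟩
    have hsplit : ∀ m, n + 1 ≤ m → (nc A n m : ℝ) = a + nc A (n + 1) m := by
      intro m hm
      have h2 := nc_add (A := A) (a := n) (b := n + 1) (c := m) (by omega) hm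
      have h3 := nc_one A n
      rw [← ha] at h3
      rw [← h2, Nat.cast_add, h3]
    have ha01 : a = 0 ∨ a = 1 := by
      rw [ha]; split_ifs <;> simp
    have ha0 : 0 ≤ a := by rcases ha01 with h | h <;> rw [h]; norm_num
    have hP : (∃ m, n < m ∧ m ≤ w ∧ τ * ((m : ℝ) - n) < nc A n m) ↔ 0 < a - τ + R' := by
      constructor
      · rintro ⟨m, h2, h3, h4⟩
        have h5 := hRb m h2 h3
        rw [hsplit m h2] at h4
        push_cast at h5
        nlinarith
      · intro h2
        refine ⟨m0, hm0, hm0w, ?_⟩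
        rw [hsplit m0 hm0]
        push_cast at hRm
        nlinarith
    have hds : ds A τ n w = if 0 < a - τ + R' then insert n (ds A τ (n + 1) w)
        else ds A τ (n + 1) w := by
      have hIco : Finset.Ico n w = insert n (Finset.Ico (n + 1) w) := by
        ext x
        simp only [Finset.mem_Ico, Finset.mem_insert]
        omega
      unfold ds
      rw [hIco, Finset.filter_insert]
      by_cases h : 0 < a - τ + R'
      · rw [if_pos (hP.mpr h), if_pos h]
      · rw [if_neg (fun h' => h (hP.mp h')), if_neg h]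
    have hnot : n ∉ ds A τ (n + 1) w := by
      unfold ds
      simp
    have hnw1 := hsplit w (by omega)
    by_cases hT : 0 < a - τ + R'
    · rw [if_pos hT] at hds
      have hcard : ((ds A τ n w).card : ℝ) = (ds A τ (n + 1) w).card + 1 := by
        rw [hds, Finset.card_insert_of_notMem hnot]
        push_cast; ring
      refine ⟨a - τ + R', c', hT.le, ?_, ⟨m0, by omega, hm0w, ?_⟩, ?_, ?_, ?_⟩
      · intro m h2 h3
        rcases Nat.eq_or_lt_of_le h2 with rfl | h4
        · rw [nc_self]; simp; linarith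
        · have h5 := hRb m h4 h3
          rw [hsplit m h4]
          push_cast at h5
          nlinarith
      · rw [hsplit m0 hm0]
        push_cast at hRm
        rw [hRm]; ring
      · rw [hcard, hnw1]; nlinarith
      · rw [hcard, hnw1]; nlinarith
      · rw [if_pos hT, hnw1]
        by_cases hR' : 0 < R'
        · rw [if_pos hR'] at hC
          linarith
        · have hR'' : R' = 0 := le_antisymm (not_lt.mp hR') hR0
          rw [if_neg hR'] at hC
          have ha1 : a = 1 := by
            rcases ha01 with h | h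
            · rw [h, hR''] at hT; linarith
            · exact h
          linarith
    · rw [if_neg hT] at hds
      have ha1 : a = 0 := by
        rcases ha01 with h | h
        · exact h
        · rw [h] at hT
          exfalso; apply hT; linarith
      rw [ha1] at hT
      have hR' : R' ≤ τ := by linarith [not_lt.mp hT]
      refine ⟨0, c' + (if 0 < R' then 1 else 0), le_rfl, ?_, ⟨n, le_rfl, hnw.le, ?_⟩, ?_, ?_, ?_⟩
      · intro m h2 h3
        rcases Nat.eq_or_lt_of_le h2 with rfl | h4
        · rw [nc_self]; simp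
        · have h5 := hRb m h4 h3
          rw [hsplit m h4, ha1]
          push_cast at h5
          nlinarith
      · simp [nc_self]
      · rw [hds, hnw1]; linarith
      · rw [hds, hnw1, ha1]
        by_cases hR'' : 0 < R'
        · rw [if_pos hR'']
          push_cast
          nlinarith
        · rw [if_neg hR'']
          have hR3 : R' = 0 := le_antisymm (not_lt.mp hR'') hR0
          rw [hR3] at hU
          push_cast
          linarith
      · rw [hnw1, ha1]
        simp only [lt_irrefl, if_false]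
        by_cases hR'' : 0 < R'
        · rw [if_pos hR''] at hC ⊢
          push_cast
          linarith
        · rw [if_neg hR''] at hC ⊢
          push_cast
          linarith

/-- Lower bound for the number of elements. -/
lemma lowerN (A : Set ℕ) (τ : ℝ) (h0 : 0 < τ) {z w : ℕ} (hzw : z ≤ w) :
    τ * ((ds A τ z w).card : ℝ) ≤ nc A z w := by
  classical
  by_cases h1 : τ < 1
  · obtain ⟨R, c, hR, -, -, hL, -, -⟩ := core A τ h0 h1 w (w - z) z (by omega)
    linarith
  · have : ds A τ z w = ∅ := by
      unfold ds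
      rw [Finset.filter_eq_empty_iff]
      rintro n - ⟨m, h2, h3, h4⟩
      have h5 := nc_le_real A h2.le
      have h6 : (n : ℝ) < m := by exact_mod_cast h2
      nlinarith [not_lt.mp h1]
    rw [this]
    simp

/-- Upper bound for the number of elements. -/
lemma upperN (A : Set ℕ) (τ V : ℝ) (h0 : 0 < τ) (hV : 0 ≤ V) {z w : ℕ} (hzw : z ≤ w)
    (hz : ∀ m, z < m → m ≤ w → (nc A z m : ℝ) ≤ τ * ((m : ℝ) - z) + V) :
    (nc A z w : ℝ) ≤ τ * ((ds A τ z w).card : ℝ) + V + τ * nc A z w := by
  classical
  by_cases h1 : τ < 1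
  · obtain ⟨R, c, hR, -, ⟨m, hm1, hm2, hm3⟩, -, hU, hC⟩ := core A τ h0 h1 w (w - z) z (by omega)
    have hRV : R ≤ V := by
      rcases Nat.eq_or_lt_of_le hm1 with rfl | h4
      · rw [hm3, nc_self]; simpa using hV
      · have := hz m h4 hm2
        rw [hm3]; linarith
    have hcn : (c : ℝ) ≤ nc A z w := by
      have : (0 : ℝ) ≤ if 0 < R then 1 else 0 := by split_ifs <;> norm_num
      linarith
    have := mul_le_mul_of_nonneg_left hcn h0.le
    linarith
  · have h2 : (0 : ℝ) ≤ nc A z w := Nat.cast_nonneg _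
    have h3 : (0 : ℝ) ≤ (ds A τ z w).card := Nat.cast_nonneg _
    have h4 := mul_nonneg h0.le h3
    nlinarith [not_lt.mp h1]

end Pool.Agent.H669.PS
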