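import Pool.Agent.H669.PS.Mac

set_option autoImplicit false

/-! # The asymptotic formula in short intervals and the law of the dense windows -/

open Filter Topology

namespace Pool.Agent.H669.PS

/-- the asymptotic formula `κ H / log x` for the number of elements of `A` in all intervals
`(x, x + H]` of length at least `x ^ ε` -/
def Asym (A : Set ℕ) (κ ε : ℝ) : Prop :=
  ∀ δ : ℝ, 0 < δ → ∃ X : ℝ, ∀ x H : ℝ, X ≤ x → x ^ ε ≤ H → H ≤ x →
    |count A x H * Real.log x / H - κ| ≤ δ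

/-- the starting points of `μ`-dense windows have the proportion `κ / μ` in all intervals of
length at least `x ^ ε` -/
def Law (A : Set ℕ) (κ μ ε : ℝ) : Prop :=
  ∀ δ : ℝ, 0 < δ → ∃ X : ℝ, ∀ x H : ℝ, X ≤ x → x ^ ε ≤ H → H ≤ x →
    |count (dense A μ) x H / H - κ / μ| ≤ δ

/-- an upper bound for all window lengths from one for the lengths `n ^ ε₁ ≤ h ≤ n` -/
lemma all_windows {A : Set ℕ} {κ ε₁ δ : ℝ} (hκ : 0 ≤ κ) (hε1 : ε₁ ≤ 1) (hε0 : 0 ≤ ε₁)
    (hδ : 0 < δ) {X : ℝ}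
    (hX : ∀ x H : ℝ, X ≤ x → x ^ ε₁ ≤ H → H ≤ x → |count A x H * Real.log x / H - κ| ≤ δ) :
    ∀ h n : ℕ, X ≤ n → 2 ≤ n → nc A n (n + h) * Real.log n ≤
      (κ + δ) * h + ((n : ℝ) + h) ^ ε₁ * Real.log ((n : ℝ) + h) := by
  intro h
  induction h using Nat.strong_induction_on with
  | _ h ih =>
    intro n hn hn2
    have hn1 : (2 : ℝ) ≤ n := by exact_mod_cast hn2
    have hn0 : (0 : ℝ) < n := by linarith
    have hln : 0 < Real.log n := Real.log_pos (by linarith)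
    have hh0 : (0 : ℝ) ≤ h := Nat.cast_nonneg h
    have hE : 0 ≤ ((n : ℝ) + h) ^ ε₁ * Real.log ((n : ℝ) + h) :=
      mul_nonneg (by positivity) (Real.log_nonneg (by linarith))
    have hstep : ∀ k : ℕ, (n : ℝ) ^ ε₁ ≤ k → (k : ℝ) ≤ n →
        nc A n (n + k) * Real.log n ≤ (κ + δ) * k := by
      intro k hk1 hk2
      have h1 := hX n k hn hk1 hk2
      have hk0 : (0 : ℝ) < k := lt_of_lt_of_le (Real.rpow_pos_of_pos hn0 _) hk1
      rw [count_eq A hn0.le hk0.le, Nat.floor_natCast, ← Nat.cast_add, Nat.floor_natCast] at h1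
      have h2 := (abs_le.mp h1).2
      have h3 : (nc A n (n + k) : ℝ) * Real.log n / k ≤ κ + δ := by linarith
      rwa [div_le_iff₀ hk0] at h3
    by_cases h1 : (h : ℝ) < (n : ℝ) ^ ε₁
    · have h2 : (nc A n (n + h) : ℝ) ≤ h := by
        have := nc_le A n (n + h)
        exact_mod_cast this.trans (by omega)
      have h3 : (n : ℝ) ^ ε₁ ≤ ((n : ℝ) + h) ^ ε₁ :=
        Real.rpow_le_rpow hn0.le (by linarith) hε0
      have h4 : Real.log n ≤ Real.log ((n : ℝ) + h) := Real.log_le_log hn0 (by linarith)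
      have h5 : (nc A n (n + h) : ℝ) * Real.log n ≤
          ((n : ℝ) + h) ^ ε₁ * Real.log ((n : ℝ) + h) :=
        mul_le_mul (h2.trans (h1.le.trans h3)) h4 hln.le (by positivity)
      have h6 : 0 ≤ (κ + δ) * h := by positivity
      linarith
    push Not at h1
    by_cases h2 : (h : ℝ) ≤ n
    · have := hstep h h1 h2
      linarith
    · push Not at h2
      have h2' : n < h := by exact_mod_cast h2
      have h3 := hstep n (by
        calc (n : ℝ) ^ ε₁ ≤ (n : ℝ) ^ (1 : ℝ) := Real.rpow_le_rpow_of_exponent_le (by linarith) hε1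
          _ = n := Real.rpow_one _) le_rfl
      have h4 := ih (h - n) (by omega) (n + n) (by push_cast; linarith) (by omega)
      have h5 : n + n + (h - n) = n + h := by omega
      have h6 : ((h - n : ℕ) : ℝ) = (h : ℝ) - n := Nat.cast_sub h2'.le
      have h7 : ((n + n : ℕ) : ℝ) + ((h - n : ℕ) : ℝ) = (n : ℝ) + h := by
        rw [h6]; push_cast; ring
      rw [h5, h7, h6] at h4
      have h8 : (nc A n (n + h) : ℝ) = nc A n (n + n) + nc A (n + n) (n + h) := by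
        exact_mod_cast (nc_add (A := A) (a := n) (b := n + n) (c := n + h) (by omega)
          (by omega)).symm
      have h9 : (nc A (n + n) (n + h) : ℝ) * Real.log n ≤
          nc A (n + n) (n + h) * Real.log ((n + n : ℕ) : ℝ) := by
        apply mul_le_mul_of_nonneg_left _ (Nat.cast_nonneg _)
        apply Real.log_le_log hn0
        push_cast; linarith
      rw [h8, add_mul]
      linarith

lemma glob {A : Set ℕ} {κ ε₁ ε₂ μ : ℝ} (hκ : 0 ≤ κ) (h0 : 0 ≤ ε₁) (h12 : ε₁ < ε₂)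
    (h2 : ε₂ ≤ 1) (hμ : κ < μ) (hA : Asym A κ ε₁) : ∃ X1 : ℕ, ∀ n m : ℕ, X1 ≤ n → (n : ℝ) + (n : ℝ) ^ ε₂ ≤ m →
      nc A n m * Real.log n ≤ μ * ((m : ℝ) - n) := by
  obtain ⟨δ, hδ⟩ : ∃ δ, δ = (μ - κ) / 2 := ⟨_, rfl⟩
  have hδ0 : 0 < δ := by rw [hδ]; linarith
  have hε2 : 0 < ε₂ := by linarith
  obtain ⟨X, hX⟩ := hA δ hδ0
  have hall := all_windows hκ (h12.le.trans h2) h0 hδ0 hX
  -- T ^ ε₁ log T ≤ δ (T / 2) ^ ε₂
  have hT : ∀ᶠ T : ℝ in atTop, T ^ ε₁ * Real.log T ≤ δ * (T / 2) ^ ε₂ := by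
    have h3 := (isLittleO_log_rpow_atTop (show 0 < ε₂ - ε₁ by linarith)).bound
      (show (0 : ℝ) < δ / 2 ^ ε₂ by positivity)
    filter_upwards [h3, eventually_ge_atTop (1 : ℝ)] with T hT hT1
    have hT0 : 0 < T := by linarith
    rw [Real.norm_of_nonneg (Real.log_nonneg hT1), Real.norm_of_nonneg (by positivity)] at hT
    have h4 : (T / 2) ^ ε₂ = T ^ ε₂ / 2 ^ ε₂ := Real.div_rpow hT0.le (by norm_num) _
    have h5 : T ^ ε₂ = T ^ ε₁ * T ^ (ε₂ - ε₁) := by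
      rw [← Real.rpow_add hT0]; congr 1; ring
    calc T ^ ε₁ * Real.log T ≤ T ^ ε₁ * (δ / 2 ^ ε₂ * T ^ (ε₂ - ε₁)) := by gcongr
      _ = δ * (T / 2) ^ ε₂ := by rw [h4, h5]; ring
  obtain ⟨T₀, hT₀⟩ := eventually_atTop.mp hT
  obtain ⟨X1, hX1⟩ := eventually_atTop.mp ((tendsto_natCast_atTop_atTop (R := ℝ)).eventually_ge_atTop
    (max (max X 2) T₀))
  refine ⟨X1, fun n m hn hnm => ?_⟩
  have h3 := hX1 n hn
  have hnX : X ≤ n := ((le_max_left _ _).trans (le_max_left _ _)).trans h3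
  have hn2 : (2 : ℝ) ≤ n := ((le_max_right _ _).trans (le_max_left _ _)).trans h3
  have hnT : T₀ ≤ n := (le_max_right _ _).trans h3
  have hn2' : 2 ≤ n := by exact_mod_cast hn2
  have hn0 : (0 : ℝ) < n := by linarith
  have hnm' : n ≤ m := by
    have : (n : ℝ) ≤ m := by
      have := Real.rpow_pos_of_pos hn0 ε₂
      linarith
    exact_mod_cast this
  obtain ⟨h, rfl⟩ := Nat.exists_eq_add_of_le hnm'
  have h4 := hall h n hnX hn2'
  push_cast at hnm ⊢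
  have hh : (n : ℝ) ^ ε₂ ≤ h := by linarith
  have hh1 : 1 ≤ (h : ℝ) := (Real.one_le_rpow (by linarith) hε2.le).trans hh
  have hh0 : (0 : ℝ) < h := by linarith
  obtain ⟨T, hTd⟩ : ∃ T : ℝ, T = 2 * (h : ℝ) ^ (1 / ε₂) := ⟨_, rfl⟩
  have hnh : (n : ℝ) ≤ (h : ℝ) ^ (1 / ε₂) := by
    have h5 : ((n : ℝ) ^ ε₂) ^ (1 / ε₂) ≤ (h : ℝ) ^ (1 / ε₂) :=
      Real.rpow_le_rpow (by positivity) hh (by positivity)
    rwa [← Real.rpow_mul hn0.le, mul_one_div, div_self hε2.ne', Real.rpow_one] at h5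
  have hhh : (h : ℝ) ≤ (h : ℝ) ^ (1 / ε₂) := by
    calc (h : ℝ) = (h : ℝ) ^ (1 : ℝ) := (Real.rpow_one _).symm
      _ ≤ (h : ℝ) ^ (1 / ε₂) := by
        apply Real.rpow_le_rpow_of_exponent_le hh1
        rw [le_div_iff₀ hε2]; linarith
  have hnT2 : (n : ℝ) + h ≤ T := by rw [hTd]; linarith
  have h5 := hT₀ T (by linarith)
  have h6 : (T / 2) ^ ε₂ = h := by
    rw [hTd, mul_div_cancel_left₀ _ (by norm_num : (2 : ℝ) ≠ 0), ← Real.rpow_mul hh0.le,
      one_div, inv_mul_cancel₀ hε2.ne', Real.rpow_one]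
  rw [h6] at h5
  have h7 : ((n : ℝ) + h) ^ ε₁ * Real.log ((n : ℝ) + h) ≤ T ^ ε₁ * Real.log T := by
    apply mul_le_mul
    · exact Real.rpow_le_rpow (by linarith) hnT2 h0
    · exact Real.log_le_log (by linarith) hnT2
    · exact Real.log_nonneg (by linarith)
    · have : 0 < T := by linarith
      positivity
  have h8 : (n : ℝ) + h - n = h := by ring
  rw [h8]
  have h9 : κ + δ + δ = μ := by rw [hδ]; ring
  have h10 : μ * h = (κ + δ) * h + δ * h := by rw [← h9]; ring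
  rw [h10]
  linarith

/-- the asymptotic formula implies the law -/
theorem law_of_asym {A : Set ℕ} {κ μ θ : ℝ} (hκ : 0 ≤ κ) (hμ : κ < μ) (hθ : 0 ≤ θ)
    (h : ∀ ε, θ < ε → ε ≤ 1 → Asym A κ ε) : ∀ ε, θ < ε → ε ≤ 1 → Law A κ μ ε := by
  intro ε h1 h2 δ hδ
  have hμ0 : 0 < μ := by linarith
  obtain ⟨ε₁, he1, he2⟩ : ∃ ε₁, θ < ε₁ ∧ ε₁ < ε := exists_between h1
  obtain ⟨ε₂, he3, he4⟩ : ∃ ε₂, ε₁ < ε₂ ∧ ε₂ < ε := exists_between he2
  obtain ⟨X1, hX1⟩ := glob hκ (by linarith) he3 (by linarith) hμ (h ε₁ he1 (by linarith))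
  obtain ⟨X2, hX2⟩ := macroBal μ ε ε₂ hμ0 (by linarith) he4 X1
  obtain ⟨X3, hX3⟩ := h ε h1 h2 (μ * δ / 2) (by positivity)
  have hev := (eventually_ge_atTop (max (max X2 X3) 2)).and
    (Real.tendsto_log_atTop.eventually_ge_atTop (10 * (μ + 1) ^ 2 / (μ * δ) + 1))
  obtain ⟨X, hX⟩ := eventually_atTop.mp hev
  refine ⟨X, fun x H hx hxH hHx => ?_⟩
  obtain ⟨h3, h4⟩ := hX x hx
  have hx2 : X2 ≤ x := ((le_max_left _ _).trans (le_max_left _ _)).trans h3
  have hx3 : X3 ≤ x := ((le_max_right _ _).trans (le_max_left _ _)).trans h3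
  have hx4 : 2 ≤ x := (le_max_right _ _).trans h3
  have hH0 : 0 < H := lt_of_lt_of_le (Real.rpow_pos_of_pos (by linarith) _) hxH
  have h5 := hX2 A hX1 x H hx2 hxH hHx
  have h6 := hX3 x H hx3 hxH hHx
  obtain ⟨L, hL⟩ : ∃ L, L = Real.log x := ⟨_, rfl⟩
  rw [← hL] at h4 h5 h6
  have hL0 : 0 < L := by
    have : 0 ≤ 10 * (μ + 1) ^ 2 / (μ * δ) := by positivity
    linarith
  obtain ⟨D, hD⟩ : ∃ D, D = count (dense A μ) x H := ⟨_, rfl⟩
  obtain ⟨C, hC⟩ : ∃ C, C = count A x H := ⟨_, rfl⟩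
  rw [← hD, ← hC] at h5
  rw [← hC] at h6
  rw [← hD]
  have h7 : |μ * D / H - C * L / H| ≤ μ * δ / 2 := by
    rw [← sub_div, abs_div, abs_of_pos hH0, div_le_iff₀ hH0]
    refine h5.trans ?_
    have h8 : 10 * (μ + 1) ^ 2 / (μ * δ) ≤ L := by linarith
    rw [div_le_iff₀ (by positivity)] at h8
    rw [← mul_div_assoc, div_le_iff₀ hL0]
    nlinarith
  have h8 : |μ * D / H - κ| ≤ μ * δ := by
    have : μ * D / H - κ = (μ * D / H - C * L / H) + (C * L / H - κ) := by ring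
    rw [this]
    refine (abs_add_le _ _).trans ?_
    linarith
  have h9 : D / H - κ / μ = (μ * D / H - κ) / μ := by field_simp
  rw [h9, abs_div, abs_of_pos hμ0, div_le_iff₀ hμ0]
  linarith

end Pool.Agent.H669.PS
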