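import Pool.Agent.H669.PS.Bal
import Pool.Graph.R_seed8.H617R3.BT.Sieve

set_option autoImplicit false

/-! # Consequences of macroscopic upper bounds -/

open Filter Topology

namespace Pool.Agent.H669.PS

lemma ev_small {ε' ε : ℝ} (h0 : 0 ≤ ε') (h1 : ε' < ε) :
    ∀ᶠ x : ℝ in atTop, ((2 * x) ^ ε' + 3) * (Real.log x) ^ 2 ≤ x ^ ε := by
  have h2 := (isLittleO_log_rpow_rpow_atTop (2 : ℝ) (show 0 < ε - ε' by linarith)).bound
    (show (0 : ℝ) < 1 / (2 ^ ε' + 3) by positivity)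
  filter_upwards [h2, eventually_ge_atTop (1 : ℝ)] with x hx hx1
  have hx0 : 0 < x := by linarith
  have hl : 0 ≤ Real.log x := Real.log_nonneg hx1
  rw [Real.norm_of_nonneg (by positivity), Real.norm_of_nonneg (by positivity)] at hx
  have h3 : Real.log x ^ (2 : ℝ) = Real.log x ^ 2 := by
    rw [← Real.rpow_natCast]; norm_num
  rw [h3] at hx
  have h4 : (2 * x) ^ ε' = 2 ^ ε' * x ^ ε' := Real.mul_rpow (by norm_num) hx0.le
  have h5 : 1 ≤ x ^ ε' := Real.one_le_rpow hx1 h0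
  have h6 : (2 * x) ^ ε' + 3 ≤ (2 ^ ε' + 3) * x ^ ε' := by rw [h4]; linarith
  have h7 : x ^ ε = x ^ ε' * x ^ (ε - ε') := by
    rw [← Real.rpow_add hx0]; congr 1; ring
  calc ((2 * x) ^ ε' + 3) * (Real.log x) ^ 2 ≤ (2 ^ ε' + 3) * x ^ ε' * (Real.log x) ^ 2 := by
        gcongr
    _ ≤ (2 ^ ε' + 3) * x ^ ε' * (1 / (2 ^ ε' + 3) * x ^ (ε - ε')) := by gcongr
    _ = x ^ ε := by rw [h7]; field_simp

/-- Under a macroscopic upper bound the elements of the set and the starting points of dense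
windows balance in all intervals. -/
lemma macroBal (μ ε ε' : ℝ) (hμ : 0 < μ) (h0 : 0 ≤ ε') (h1 : ε' < ε) (X1 : ℕ) :
    ∃ X : ℝ, ∀ A : Set ℕ, (∀ n m : ℕ, X1 ≤ n → (n : ℝ) + (n : ℝ) ^ ε' ≤ m →
        nc A n m * Real.log n ≤ μ * ((m : ℝ) - n)) →
      ∀ x H : ℝ, X ≤ x → x ^ ε ≤ H → H ≤ x →
        |μ * count (dense A μ) x H - count A x H * Real.log x| ≤
          5 * (μ + 1) ^ 2 * (H / Real.log x) := by
  have hev := (ev_small h0 h1).and ((eventually_ge_atTop (max 4 ((X1 : ℝ) + 1))).and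
    (Real.tendsto_log_atTop.eventually_ge_atTop 2))
  obtain ⟨X, hX⟩ := eventually_atTop.mp hev
  refine ⟨X, fun A hA x H hx hxH hHx => ?_⟩
  obtain ⟨h3, h4, h5⟩ := hX x hx
  have hx4 : 4 ≤ x := (le_max_left _ _).trans h4
  have hxX1 : (X1 : ℝ) + 1 ≤ x := (le_max_right _ _).trans h4
  have hx0 : 0 < x := by linarith
  obtain ⟨L, hL⟩ : ∃ L, L = Real.log x := ⟨_, rfl⟩
  rw [← hL] at h3 h5 ⊢
  obtain ⟨Y, hY⟩ : ∃ Y, Y = (2 * x) ^ ε' := ⟨_, rfl⟩
  rw [← hY] at h3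
  have hY0 : 0 ≤ Y := by rw [hY]; positivity
  have hL0 : 0 < L := by linarith
  have hH0 : 0 < H := lt_of_lt_of_le (Real.rpow_pos_of_pos hx0 _) hxH
  have hYH : (Y + 3) * L ^ 2 ≤ H := h3.trans hxH
  obtain ⟨W, hW⟩ : ∃ W, W = H / L := ⟨_, rfl⟩
  have hWL : W * L = H := by rw [hW]; field_simp
  rw [← hW]
  have hYW : (Y + 3) * L ≤ W := by
    have : (Y + 3) * L * L ≤ W * L := by rw [hWL]; nlinarith
    exact le_of_mul_le_mul_right this hL0
  have hYW' : 2 * (Y + 3) ≤ W := by nlinarith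
  have hW0 : 0 < W := by rw [hW]; positivity
  have hHW : 2 * W ≤ H := by rw [← hWL]; nlinarith
  obtain ⟨u, hu⟩ : ∃ u, u = ⌊x⌋₊ := ⟨_, rfl⟩
  obtain ⟨v, hv⟩ : ∃ v, v = ⌊x + H⌋₊ := ⟨_, rfl⟩
  have huv : u ≤ v := by rw [hu, hv]; exact Nat.floor_le_floor (by linarith)
  have hux : (u : ℝ) ≤ x := by rw [hu]; exact Nat.floor_le hx0.le
  have hxu : x < u + 1 := by rw [hu]; exact Nat.lt_floor_add_one x
  have hvx : (v : ℝ) ≤ x + H := by rw [hv]; exact Nat.floor_le (by linarith)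
  have hxv : x + H < v + 1 := by rw [hv]; exact Nat.lt_floor_add_one _
  have hu2 : 2 ≤ u := by
    rw [hu]; apply Nat.le_floor; push_cast; linarith
  have huX1 : X1 ≤ u := by
    rw [hu]; apply Nat.le_floor; linarith
  rw [count_eq _ hx0.le hH0.le, count_eq _ hx0.le hH0.le, ← hu, ← hv]
  have hm : ∀ n m : ℕ, u ≤ n → n ≤ v → (n : ℝ) + Y ≤ m →
      nc A n m * Real.log n ≤ μ * ((m : ℝ) - n) := by
    intro n m hn1 hn2 hn3
    apply hA n m (huX1.trans hn1)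
    have h6 : (n : ℝ) ≤ v := by exact_mod_cast hn2
    have h7 : (n : ℝ) ^ ε' ≤ Y := by
      rw [hY]
      exact Real.rpow_le_rpow (Nat.cast_nonneg _) (by linarith) h0
    linarith
  have hlow := macro_lower hμ hY0 hu2 huv hm
  have hupp := macro_upper hμ hY0 hu2 huv (fun m hm' => hm u m le_rfl huv hm')
  obtain ⟨D, hD⟩ : ∃ D : ℝ, D = nc (dense A μ) u v := ⟨_, rfl⟩
  obtain ⟨C, hC⟩ : ∃ C : ℝ, C = nc A u v := ⟨_, rfl⟩
  rw [← hD, ← hC] at hlow hupp ⊢
  have hC0 : 0 ≤ C := by rw [hC]; positivity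
  have hu0 : (0 : ℝ) < u := by exact_mod_cast (by omega : 0 < u)
  have hv0 : (0 : ℝ) < v := by exact_mod_cast (by omega : 0 < v)
  have hlog2 : Real.log 2 ≤ 1 := by
    have := Real.log_two_lt_d9; linarith
  have hlv : Real.log v ≤ L + 1 := by
    have : Real.log v ≤ Real.log (2 * x) := Real.log_le_log hv0 (by linarith)
    rw [Real.log_mul (by norm_num) hx0.ne', ← hL] at this
    linarith
  have hlu : L - 1 ≤ Real.log u := by
    have : Real.log (x / 2) ≤ Real.log u := Real.log_le_log (by positivity) (by linarith)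
    rw [Real.log_div hx0.ne' (by norm_num), ← hL] at this
    linarith
  have hlu' : Real.log u ≤ L := by
    rw [hL]; exact Real.log_le_log hu0 hux
  -- bound for C
  have hCb : C ≤ 4 * μ * W := by
    have h6 := hm u v le_rfl huv (by linarith)
    rw [← hC] at h6
    have h7 : C * (L - 1) ≤ μ * ((v : ℝ) - u) :=
      (mul_le_mul_of_nonneg_left hlu hC0).trans h6
    have h8 : μ * ((v : ℝ) - u) ≤ μ * (2 * H) := by
      apply mul_le_mul_of_nonneg_left _ hμ.le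
      nlinarith
    have h9 : C * L ≤ 4 * μ * W * L := by
      have : C * (L / 2) ≤ C * (L - 1) := mul_le_mul_of_nonneg_left (by linarith) hC0
      have h10 : 4 * μ * W * L = 4 * μ * H := by rw [← hWL]; ring
      rw [h10]
      linarith
    exact le_of_mul_le_mul_right h9 hL0
  have hW1 : 1 ≤ W := by linarith
  rw [abs_le]
  constructor
  · have h6 : C * (L - 1) ≤ C * Real.log u := mul_le_mul_of_nonneg_left hlu hC0
    have h7 : Y * Real.log u ≤ Y * L := mul_le_mul_of_nonneg_left hlu' hY0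
    have h8 : Y * L ≤ W := le_trans (mul_le_mul_of_nonneg_right (by linarith) hL0.le) hYW
    have h9 : μ * 1 ≤ μ * W := mul_le_mul_of_nonneg_left hW1 hμ.le
    have h10 : (μ + 1) * C ≤ (μ + 1) * (4 * μ * W) :=
      mul_le_mul_of_nonneg_left hCb (by linarith)
    have h11 : 0 ≤ (μ ^ 2 + 5 * μ + 4) * W := by positivity
    have key : 5 * (μ + 1) ^ 2 * W =
        (μ + 1) * (4 * μ * W) + μ * W + W + (μ ^ 2 + 5 * μ + 4) * W := by ring
    rw [key]
    linarith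
  · have h6 : C * Real.log v ≤ C * (L + 1) := mul_le_mul_of_nonneg_left hlv hC0
    have h7 : μ * (Y + 2) ≤ μ * W := mul_le_mul_of_nonneg_left (by linarith) hμ.le
    have h11 : 0 ≤ (5 * μ ^ 2 + 5 * μ + 5) * W := by positivity
    have key : 5 * (μ + 1) ^ 2 * W = 4 * μ * W + μ * W + (5 * μ ^ 2 + 5 * μ + 5) * W := by ring
    rw [key]
    linarith

/-- the primes -/
def P : Set ℕ := {p : ℕ | p.Prime}

/-- the Brun-Titchmarsh inequality -/
lemma bt_nc (δ : ℝ) (hδ : 0 < δ) : ∃ N₀ : ℕ, 3 ≤ N₀ ∧ ∀ n m : ℕ, n + N₀ ≤ m →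
    (nc P n m : ℝ) ≤ (2 + δ) * ((m : ℝ) - n) / Real.log ((m : ℝ) - n) := by
  classical
  obtain ⟨N₀, h3, hN⟩ := Pool.Agent.H617R3.BT.bt2 δ hδ
  refine ⟨N₀, h3, fun n m hm => ?_⟩
  have h1 := hN (n + 1) 1 (m - n) le_rfl (by omega)
  have h2 : ((m - n : ℕ) : ℝ) = (m : ℝ) - n := by
    rw [Nat.cast_sub (by omega)]
  rw [h2] at h1
  simp only [Nat.totient_one, Nat.cast_one, div_one, mul_one] at h1
  refine le_trans ?_ h1
  have h4 : nc P n m ≤ ((Finset.range (m - n)).filter (fun t => (n + 1 + t).Prime)).card := by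
    unfold nc
    apply Finset.card_le_card_of_injOn (fun p => p - (n + 1))
    · intro p hp
      rw [Finset.mem_coe, Finset.mem_filter, Finset.mem_Ioc] at hp
      rw [Finset.mem_coe, Finset.mem_filter, Finset.mem_range]
      show p - (n + 1) < m - n ∧ (n + 1 + (p - (n + 1))).Prime
      have h5 : n + 1 + (p - (n + 1)) = p := by omega
      rw [h5]
      exact ⟨by omega, hp.2⟩
    · intro p hp q hq hpq
      rw [Finset.mem_coe, Finset.mem_filter, Finset.mem_Ioc] at hp hq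
      simp only at hpq
      omega
  exact_mod_cast h4

/-- macroscopic bound for all sets of primes -/
lemma bt_macro (ε' μ : ℝ) (hε : 0 < ε') (hμ : 2 < μ * ε') : ∃ X1 : ℕ, ∀ A : Set ℕ, A ⊆ P →
    ∀ n m : ℕ, X1 ≤ n → (n : ℝ) + (n : ℝ) ^ ε' ≤ m →
      nc A n m * Real.log n ≤ μ * ((m : ℝ) - n) := by
  obtain ⟨N₀, h3, hN⟩ := bt_nc (μ * ε' - 2) (by linarith)
  have hev : ∀ᶠ n : ℕ in atTop, (N₀ : ℝ) + 1 ≤ (n : ℝ) ^ ε' :=
    ((tendsto_rpow_atTop hε).comp tendsto_natCast_atTop_atTop).eventually_ge_atTop _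
  obtain ⟨X1, hX1⟩ := eventually_atTop.mp (hev.and (eventually_ge_atTop 3))
  refine ⟨X1, fun A hA n m hn hnm => ?_⟩
  obtain ⟨h4, h5⟩ := hX1 n hn
  have hn3 : (3 : ℝ) ≤ n := by exact_mod_cast h5
  have hn0 : (0 : ℝ) < n := by linarith
  have hln : 0 < Real.log n := Real.log_pos (by linarith)
  obtain ⟨h, hh⟩ : ∃ h : ℝ, h = (m : ℝ) - n := ⟨_, rfl⟩
  have hh1 : (n : ℝ) ^ ε' ≤ h := by rw [hh]; linarith
  have hNm : n + N₀ ≤ m := by
    have : (n : ℝ) + N₀ ≤ m := by linarith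
    exact_mod_cast this
  have h6 := hN n m hNm
  rw [← hh] at h6 ⊢
  have hh3 : 1 < h := by
    have : (3 : ℝ) ≤ N₀ := by exact_mod_cast h3
    linarith
  have hlh : 0 < Real.log h := Real.log_pos hh3
  have h7 : ε' * Real.log n ≤ Real.log h := by
    rw [← Real.log_rpow hn0]
    exact Real.log_le_log (by positivity) hh1
  have h8 : (nc A n m : ℝ) ≤ nc P n m := by exact_mod_cast nc_mono_set hA n m
  have h9 : (nc A n m : ℝ) * Real.log h ≤ μ * ε' * h := by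
    have h10 := h8.trans h6
    rw [le_div_iff₀ hlh] at h10
    linarith
  have h10 : (nc A n m : ℝ) * (ε' * Real.log n) ≤ μ * ε' * h :=
    (mul_le_mul_of_nonneg_left h7 (Nat.cast_nonneg _)).trans h9
  have h11 : ε' * ((nc A n m : ℝ) * Real.log n) ≤ ε' * (μ * h) := by linarith
  exact le_of_mul_le_mul_left h11 hε

/-- **The law in every interval of length `x ^ ε`.** -/
theorem law_all (ε μ : ℝ) (hε : 0 < ε) (hμ : 2 / ε < μ) :
    ∃ X : ℝ, ∀ A : Set ℕ, A ⊆ P → ∀ x H : ℝ, X ≤ x → x ^ ε ≤ H → H ≤ x →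
      |μ * count (dense A μ) x H - count A x H * Real.log x| ≤
        5 * (μ + 1) ^ 2 * (H / Real.log x) := by
  have h2 : 0 < 2 / ε := by positivity
  have hμ0 : 0 < μ := h2.trans hμ
  rw [div_lt_iff₀ hε] at hμ
  obtain ⟨ε', hε', hε'1, hε'2⟩ : ∃ ε', 0 < ε' ∧ ε' < ε ∧ 2 < μ * ε' := by
    refine ⟨(ε + 2 / μ) / 2, by positivity, ?_, ?_⟩
    · have : 2 / μ < ε := by rw [div_lt_iff₀ hμ0]; linarith
      linarith
    · have : μ * ((ε + 2 / μ) / 2) = (μ * ε + 2) / 2 := by field_simp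
      rw [this]; linarith
  obtain ⟨X1, hX1⟩ := bt_macro ε' μ hε' hε'2
  obtain ⟨X, hX⟩ := macroBal μ ε ε' hμ0 hε'.le hε'1 X1
  exact ⟨X, fun A hA x H h1 h3 h4 => hX A (hX1 A hA) x H h1 h3 h4⟩

end Pool.Agent.H669.PS
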