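import Pool.Agent.H669.PS.Conv

set_option autoImplicit false

/-! # One good point in every short interval -/

open Filter Topology

namespace Pool.Agent.H669.PS

/-- the integers `n` for which some window `[n, n + h]`, `h ≤ n`, contains fewer than
`μ h / log n` elements of `A` -/
def sparse (A : Set ℕ) (μ : ℝ) : Set ℕ :=
  {n : ℕ | ∃ h : ℝ, 0 < h ∧ h ≤ n ∧ count A ((n : ℝ) - 1) (h + 1) < μ * h / Real.log n}

lemma count_closed (A : Set ℕ) {n : ℕ} (hn : 1 ≤ n) {h : ℝ} (hh : 0 ≤ h) :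
    count A ((n : ℝ) - 1) (h + 1) = nc A (n - 1) (n + ⌊h⌋₊) := by
  have h1 : (1 : ℝ) ≤ n := by exact_mod_cast hn
  rw [count_eq A (by linarith) (by linarith)]
  have e1 : ⌊(n : ℝ) - 1⌋₊ = n - 1 := by
    rw [← Nat.cast_one, ← Nat.cast_sub hn, Nat.floor_natCast]
  have e2 : (n : ℝ) - 1 + (h + 1) = h + n := by ring
  rw [e1, e2, Nat.floor_add_natCast hh, add_comm]

/-- one point without sparse windows in every interval, from the asymptotic formula -/
lemma exists_ns {A : Set ℕ} {κ θ : ℝ} (hθ : 0 ≤ θ)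
    (h : ∀ ε, θ < ε → ε ≤ 1 → Asym A κ ε) {ε δ : ℝ} (h1 : θ < ε) (h2 : ε ≤ 1) (hδ : 0 < δ) :
    ∃ X : ℝ, ∀ x H : ℝ, X ≤ x → x ^ ε ≤ H → H ≤ x →
      ∃ n : ℕ, x < n ∧ (n : ℝ) ≤ x + H ∧ n ∉ sparse A (κ - δ) := by
  classical
  by_cases hμ0 : κ - δ ≤ 0
  · -- no window is sparse
    refine ⟨2, fun x H hx hxH hHx => ?_⟩
    have hx1 : (1 : ℝ) ≤ H := (Real.one_le_rpow (by linarith) (by linarith)).trans hxH
    refine ⟨⌊x⌋₊ + 1, ?_, ?_, ?_⟩
    · push_cast; exact Nat.lt_floor_add_one x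
    · push_cast
      have := Nat.floor_le (by linarith : 0 ≤ x)
      linarith
    · rintro ⟨w, hw0, hw1, hw2⟩
      have h3 : (κ - δ) * w / Real.log ((⌊x⌋₊ + 1 : ℕ) : ℝ) ≤ 0 := by
        apply div_nonpos_of_nonpos_of_nonneg
        · exact mul_nonpos_of_nonpos_of_nonneg hμ0 hw0.le
        · apply Real.log_nonneg; push_cast; linarith [(Nat.cast_nonneg ⌊x⌋₊ : (0 : ℝ) ≤ ⌊x⌋₊)]
      have h4 : 0 ≤ count A (((⌊x⌋₊ + 1 : ℕ) : ℝ) - 1) (w + 1) := by
        unfold count; positivity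
      linarith
  push Not at hμ0
  obtain ⟨μ, hμ⟩ : ∃ μ, μ = κ - δ := ⟨_, rfl⟩
  rw [← hμ] at hμ0 ⊢
  obtain ⟨ε₁, he1, he2⟩ : ∃ ε₁, θ < ε₁ ∧ ε₁ < ε := exists_between h1
  have he10 : 0 < ε₁ := by linarith
  obtain ⟨X1, hX1⟩ := h ε₁ he1 (by linarith) (δ / 2) (by positivity)
  -- `(3 x) ^ ε₁ + 4` is small
  have hev1 : ∀ᶠ x : ℝ in atTop, μ * ((3 * x) ^ ε₁ + 4) < δ / 2 * x ^ ε := by
    have hpos : 0 < ε - ε₁ := by linarith
    have h3 := (tendsto_rpow_atTop hpos).eventually_gt_atTop (2 * μ * (3 ^ ε₁ + 4) / δ)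
    filter_upwards [h3, eventually_ge_atTop (1 : ℝ)] with x hx hx1
    have hx0 : 0 < x := by linarith
    rw [div_lt_iff₀ hδ] at hx
    have h7 : x ^ ε = x ^ ε₁ * x ^ (ε - ε₁) := by
      rw [← Real.rpow_add hx0]; congr 1; ring
    have h8 : 1 ≤ x ^ ε₁ := Real.one_le_rpow hx1 he10.le
    rw [Real.mul_rpow (by norm_num) hx0.le, h7]
    have h9 : μ * (3 ^ ε₁ * x ^ ε₁ + 4) ≤ μ * (3 ^ ε₁ + 4) * x ^ ε₁ := by
      have : 0 ≤ μ * 4 * (x ^ ε₁ - 1) := mul_nonneg (by positivity) (by linarith)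
      linarith
    have h10 : μ * (3 ^ ε₁ + 4) * x ^ ε₁ < δ / 2 * (x ^ ε₁ * x ^ (ε - ε₁)) := by
      have h11 : μ * (3 ^ ε₁ + 4) < δ / 2 * x ^ (ε - ε₁) := by linarith
      have := mul_lt_mul_of_pos_right h11 (by linarith : 0 < x ^ ε₁)
      linarith
    linarith
  have hev := hev1.and ((eventually_ge_atTop (max (X1 + 2) 8)))
  obtain ⟨X, hX⟩ := eventually_atTop.mp hev
  refine ⟨X, fun x H hx hxH hHx => ?_⟩
  obtain ⟨e1, e2⟩ := hX x hx
  have hx1 : X1 + 2 ≤ x := (le_max_left _ _).trans e2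
  have hx8 : 8 ≤ x := (le_max_right _ _).trans e2
  have hx0 : 0 < x := by linarith
  have hH1 : 1 ≤ H := (Real.one_le_rpow (by linarith) (by linarith)).trans hxH
  obtain ⟨L, hL⟩ : ∃ L, L = Real.log x := ⟨_, rfl⟩
  have hL0 : 0 < L := by rw [hL]; exact Real.log_pos (by linarith)
  by_contra hcon
  push Not at hcon
  obtain ⟨v, hv⟩ : ∃ v, v = ⌊x + H⌋₊ := ⟨_, rfl⟩
  obtain ⟨u, hu⟩ : ∃ u, u = ⌊x⌋₊ := ⟨_, rfl⟩
  have hux : (u : ℝ) ≤ x := by rw [hu]; exact Nat.floor_le hx0.le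
  have hxu : x < u + 1 := by rw [hu]; exact Nat.lt_floor_add_one x
  have hvx : (v : ℝ) ≤ x + H := by rw [hv]; exact Nat.floor_le (by linarith)
  have hxv : x + H < v + 1 := by rw [hv]; exact Nat.lt_floor_add_one _
  obtain ⟨Y, hY⟩ : ∃ Y, Y = (3 * x) ^ ε₁ := ⟨_, rfl⟩
  have hY0 : 0 < Y := by rw [hY]; positivity
  rw [← hY] at e1
  -- greedy covering
  have key : ∀ k n : ℕ, v - n = k → u < n → n ≤ v →
      ∃ m : ℕ, v < m ∧ (m : ℝ) ≤ v + Y + 2 ∧ nc A (n - 1) (m - 1) * L ≤ μ * ((m : ℝ) - n) := by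
    intro k
    induction k using Nat.strong_induction_on with
    | _ k ih =>
      intro n hk hn1 hn2
      have hnx : x < n := by
        have : (u : ℝ) + 1 ≤ n := by exact_mod_cast hn1
        linarith
      have hnv : (n : ℝ) ≤ v := by exact_mod_cast hn2
      have hsp := hcon n hnx (by linarith)
      obtain ⟨w, hw0, hw1, hw2⟩ := hsp
      rw [count_closed A (by omega) hw0.le] at hw2
      have hln : L ≤ Real.log n := by rw [hL]; exact Real.log_le_log hx0 hnx.le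
      have hln0 : 0 < Real.log n := by linarith
      rw [lt_div_iff₀ hln0] at hw2
      -- the window is short
      have hwY : w < Y := by
        by_contra h3
        push Not at h3
        have h4 : ((n : ℝ) - 1) ^ ε₁ ≤ w := by
          refine le_trans ?_ h3
          rw [hY]
          exact Real.rpow_le_rpow (by linarith) (by linarith) he10.le
        have h5 : (1 : ℝ) ≤ n := by linarith
        have h6 := hX1 n w (by linarith) (by
          refine le_trans ?_ h3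
          rw [hY]
          exact Real.rpow_le_rpow (by linarith) (by linarith) he10.le) hw1
        rw [count_eq A (by linarith) hw0.le, Nat.floor_natCast, add_comm (n : ℝ) w,
          Nat.floor_add_natCast hw0.le, add_comm ⌊w⌋₊ n] at h6
        have h7 := (abs_le.mp h6).1
        have h8 : (κ - δ / 2) ≤ (nc A n (n + ⌊w⌋₊) : ℝ) * Real.log n / w := by linarith
        rw [le_div_iff₀ hw0] at h8
        have h9 : (nc A n (n + ⌊w⌋₊) : ℝ) ≤ nc A (n - 1) (n + ⌊w⌋₊) := by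
          exact_mod_cast nc_mono (by omega) le_rfl
        have h10 := mul_le_mul_of_nonneg_right h9 hln0.le
        have h11 : (κ - δ) * w < (κ - δ / 2) * w := by
          apply mul_lt_mul_of_pos_right _ hw0; linarith
        rw [hμ] at hw2
        linarith
      obtain ⟨j, hj⟩ : ∃ j, j = ⌊w⌋₊ := ⟨_, rfl⟩
      have hjw : (j : ℝ) ≤ w := by rw [hj]; exact Nat.floor_le hw0.le
      have hwj : w < j + 1 := by rw [hj]; exact Nat.lt_floor_add_one w
      rw [← hj] at hw2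
      have hfirst : (nc A (n - 1) (n + j) : ℝ) * L ≤ μ * ((j : ℝ) + 1) := by
        calc (nc A (n - 1) (n + j) : ℝ) * L ≤ nc A (n - 1) (n + j) * Real.log n :=
              mul_le_mul_of_nonneg_left hln (Nat.cast_nonneg _)
          _ ≤ μ * w := hw2.le
          _ ≤ μ * ((j : ℝ) + 1) := mul_le_mul_of_nonneg_left hwj.le hμ0.le
      by_cases hend : v < n + j + 1
      · refine ⟨n + j + 1, hend, ?_, ?_⟩
        · push_cast; linarith
        · rw [Nat.add_sub_cancel]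
          push_cast
          have : (n : ℝ) + j + 1 - n = j + 1 := by ring
          rw [this]
          exact hfirst
      · push Not at hend
        obtain ⟨m, hm1, hm2, hm3⟩ := ih (v - (n + j + 1)) (by omega) (n + j + 1) rfl (by omega) hend
        refine ⟨m, hm1, hm2, ?_⟩
        rw [Nat.add_sub_cancel] at hm3
        have h5 : (nc A (n - 1) (m - 1) : ℝ) = nc A (n - 1) (n + j) + nc A (n + j) (m - 1) := by
          exact_mod_cast (nc_add (A := A) (a := n - 1) (b := n + j) (c := m - 1) (by omega)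
            (by omega)).symm
        rw [h5, add_mul]
        push_cast at hm3
        linarith
  have huv : u < v := by
    have : (u : ℝ) + 1 ≤ v + 1 := by linarith
    have h3 : u ≤ v := by exact_mod_cast (by linarith : (u : ℝ) ≤ v)
    rcases Nat.lt_or_ge u v with h4 | h4
    · exact h4
    · exfalso
      have h5 : u = v := le_antisymm h3 h4
      rw [h5] at hux
      linarith
  obtain ⟨m, hm1, hm2, hm3⟩ := key (v - (u + 1)) (u + 1) rfl (by omega) huv
  rw [Nat.add_sub_cancel] at hm3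
  have h3 := hX1 x H (by linarith) (by
    refine le_trans ?_ hxH
    exact Real.rpow_le_rpow_of_exponent_le (by linarith) he2.le) hHx
  have hH0 : 0 < H := by linarith
  rw [count_eq A hx0.le hH0.le, ← hu, ← hv, ← hL] at h3
  have h4 := (abs_le.mp h3).1
  have h5 : κ - δ / 2 ≤ (nc A u v : ℝ) * L / H := by linarith
  rw [le_div_iff₀ hH0] at h5
  have h6 : (nc A u v : ℝ) ≤ nc A u (m - 1) := by
    exact_mod_cast nc_mono le_rfl (by omega)
  have h7 : (nc A u v : ℝ) * L ≤ nc A u (m - 1) * L := mul_le_mul_of_nonneg_right h6 hL0.le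
  have h8 : μ * ((m : ℝ) - ((u + 1 : ℕ) : ℝ)) ≤ μ * (H + Y + 4) := by
    apply mul_le_mul_of_nonneg_left _ hμ0.le
    push_cast
    linarith
  have h9 : μ * (H + Y + 4) = κ * H - δ * H + μ * (Y + 4) := by rw [hμ]; ring
  have h10 : δ / 2 * x ^ ε ≤ δ / 2 * H := mul_le_mul_of_nonneg_left hxH (by positivity)
  linarith

/-- one point in every short interval without dense windows and one without sparse windows -/
def Points (A : Set ℕ) (κ ε : ℝ) : Prop :=
  ∀ δ : ℝ, 0 < δ → ∃ X : ℝ, ∀ x H : ℝ, X ≤ x → x ^ ε ≤ H → H ≤ x →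
    (∃ n : ℕ, x < n ∧ (n : ℝ) ≤ x + H ∧ n ∉ dense A (κ + δ)) ∧
    (∃ n : ℕ, x < n ∧ (n : ℝ) ≤ x + H ∧ n ∉ sparse A (κ - δ))

theorem points_of_asym {A : Set ℕ} {κ θ : ℝ} (hκ : 0 ≤ κ) (hθ : 0 ≤ θ)
    (h : ∀ ε, θ < ε → ε ≤ 1 → Asym A κ ε) : ∀ ε, θ < ε → ε ≤ 1 → Points A κ ε := by
  intro ε h1 h2 δ hδ
  obtain ⟨X1, hX1⟩ := exists_ns hθ h h1 h2 hδ
  obtain ⟨X2, K₀, hX2⟩ := exists_nd hκ (by linarith : κ < κ + δ)
    (law_of_asym hκ (by linarith : κ < κ + δ) hθ h ε h1 h2)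
  have hev := ((tendsto_rpow_atTop (by linarith : 0 < ε)).eventually_ge_atTop K₀).and
    (eventually_ge_atTop (max X1 X2))
  obtain ⟨X, hX⟩ := eventually_atTop.mp hev
  refine ⟨X, fun x H hx hxH hHx => ⟨?_, ?_⟩⟩
  · obtain ⟨e1, e2⟩ := hX x hx
    exact hX2 x H ((le_max_right _ _).trans e2) hxH hHx (e1.trans hxH)
  · obtain ⟨e1, e2⟩ := hX x hx
    exact hX1 x H ((le_max_left _ _).trans e2) hxH hHx

theorem asym_of_points {A : Set ℕ} {κ θ : ℝ} (hκ : 0 ≤ κ) (hθ : 0 ≤ θ)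
    (h : ∀ ε, θ < ε → ε ≤ 1 → Points A κ ε) : ∀ ε, θ < ε → ε ≤ 1 → Asym A κ ε := by
  classical
  intro ε h1 h2 δ₀ hδ₀
  obtain ⟨δ, hδ, hδ1, hδδ⟩ : ∃ δ : ℝ, 0 < δ ∧ δ ≤ 1 ∧ δ ≤ δ₀ :=
    ⟨min δ₀ 1, by positivity, min_le_right _ _, min_le_left _ _⟩
  obtain ⟨ε₁, he1, he2⟩ : ∃ ε₁, θ < ε₁ ∧ ε₁ < ε := exists_between h1
  obtain ⟨η, hη⟩ : ∃ η, η = δ / (16 * (κ + 1)) := ⟨_, rfl⟩
  have hη0 : 0 < η := by rw [hη]; positivity
  have hκη : (κ + 1) * η = δ / 16 := by rw [hη]; field_simp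
  have hη1 : η ≤ 1 / 16 := by
    rw [hη, div_le_div_iff₀ (by positivity) (by norm_num)]
    nlinarith
  obtain ⟨X1, hX1⟩ := h ε₁ he1 (by linarith) (δ / 8) (by positivity)
  have hev1 : ∀ᶠ x : ℝ in atTop, (2 * x) ^ ε₁ ≤ η * x ^ ε := by
    have hpos : 0 < ε - ε₁ := by linarith
    have h3 := (tendsto_rpow_atTop hpos).eventually_ge_atTop (2 ^ ε₁ / η)
    filter_upwards [h3, eventually_ge_atTop (1 : ℝ)] with x hx hx1
    have hx0 : 0 < x := by linarith
    rw [div_le_iff₀ hη0] at hx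
    have h7 : x ^ ε = x ^ ε₁ * x ^ (ε - ε₁) := by
      rw [← Real.rpow_add hx0]; congr 1; ring
    rw [Real.mul_rpow (by norm_num) hx0.le, h7]
    have h8 : 0 < x ^ ε₁ := Real.rpow_pos_of_pos hx0 _
    nlinarith
  have hev2 : ∀ᶠ x : ℝ in atTop, 16 * (κ + 1) / δ ≤ x ^ ε :=
    (tendsto_rpow_atTop (by linarith : 0 < ε)).eventually_ge_atTop _
  have hev := hev1.and (hev2.and ((eventually_ge_atTop (max (2 * X1) 8)).and
    (Real.tendsto_log_atTop.eventually_ge_atTop (8 * (κ + 2) / δ + 1))))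
  obtain ⟨X, hX⟩ := eventually_atTop.mp hev
  refine ⟨X, fun x H hx hxH hHx => ?_⟩
  obtain ⟨e1, e2, e3, e4⟩ := hX x hx
  have hx1 : 2 * X1 ≤ x := (le_max_left _ _).trans e3
  have hx8 : 8 ≤ x := (le_max_right _ _).trans e3
  have hx0 : 0 < x := by linarith
  have hH0 : 0 < H := lt_of_lt_of_le (Real.rpow_pos_of_pos hx0 _) hxH
  obtain ⟨K, hK⟩ : ∃ K, K = η * H := ⟨_, rfl⟩
  have hK1 : (2 * x) ^ ε₁ ≤ K := by
    rw [hK]; exact e1.trans (mul_le_mul_of_nonneg_left hxH hη0.le)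
  have hKH : K ≤ H / 16 := by rw [hK]; nlinarith
  have hK0 : 0 < K := by rw [hK]; positivity
  have hδH : 16 * (κ + 1) ≤ δ * H := by
    rw [div_le_iff₀ hδ] at e2
    have := mul_le_mul_of_nonneg_left hxH hδ.le
    linarith
  have hpt : ∀ y : ℝ, x / 2 ≤ y → y ≤ 2 * x → y ^ ε₁ ≤ K := by
    intro y hy1 hy2
    exact (Real.rpow_le_rpow (by linarith) hy2 (by linarith)).trans hK1
  obtain ⟨z, hz1, hz2, hz3⟩ := (hX1 (x - K) K (by linarith) (hpt _ (by linarith) (by linarith))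
    (by linarith)).1
  obtain ⟨y, hy1, hy2, hy3⟩ := (hX1 x K (by linarith) (hpt _ (by linarith) (by linarith))
    (by linarith)).2
  obtain ⟨L, hL⟩ : ∃ L, L = Real.log x := ⟨_, rfl⟩
  rw [← hL] at e4 ⊢
  obtain ⟨u, hu⟩ : ∃ u, u = ⌊x⌋₊ := ⟨_, rfl⟩
  obtain ⟨v, hv⟩ : ∃ v, v = ⌊x + H⌋₊ := ⟨_, rfl⟩
  have hux : (u : ℝ) ≤ x := by rw [hu]; exact Nat.floor_le hx0.le
  have hxu : x < u + 1 := by rw [hu]; exact Nat.lt_floor_add_one x
  have hvx : (v : ℝ) ≤ x + H := by rw [hv]; exact Nat.floor_le (by linarith)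
  have hxv : x + H < v + 1 := by rw [hv]; exact Nat.lt_floor_add_one _
  rw [count_eq _ hx0.le hH0.le, ← hu, ← hv]
  have hzu : z ≤ u := by rw [hu]; exact Nat.le_floor (by linarith)
  have huv : u ≤ v := by rw [hu, hv]; exact Nat.floor_le_floor (by linarith)
  have hz22 : 2 ≤ z := by
    have : (2 : ℝ) ≤ z := by linarith
    exact_mod_cast this
  have hy22 : 2 ≤ y := by
    have : (2 : ℝ) ≤ y := by linarith
    exact_mod_cast this
  have huy : u ≤ y - 1 := by
    have h3 : (u : ℝ) < y := by linarith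
    have h4 : u < y := by exact_mod_cast h3
    omega
  have hyv : y ≤ v := by rw [hv]; exact Nat.le_floor (by linarith)
  obtain ⟨C, hC⟩ : ∃ C : ℝ, C = nc A u v := ⟨_, rfl⟩
  have hC0 : 0 ≤ C := by rw [hC]; positivity
  rw [← hC]
  have hlog2 : Real.log 2 ≤ 1 := by
    have := Real.log_two_lt_d9; linarith
  have hzpos : (0 : ℝ) < z := by
    have h5 : (2 : ℝ) ≤ z := by exact_mod_cast hz22
    linarith
  have hypos : (0 : ℝ) < y := by
    have h5 : (2 : ℝ) ≤ y := by exact_mod_cast hy22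
    linarith
  have hlz : L - 1 ≤ Real.log z := by
    have : Real.log (x / 2) ≤ Real.log z := Real.log_le_log (by positivity) (by linarith)
    rw [Real.log_div hx0.ne' (by norm_num), ← hL] at this
    linarith
  have hly : Real.log y ≤ L + 1 := by
    have : Real.log y ≤ Real.log (2 * x) := Real.log_le_log hypos (by linarith)
    rw [Real.log_mul (by norm_num) hx0.ne', ← hL] at this
    linarith
  -- upper bound
  have l2 : C * (L - 1) ≤ κ * H + 3 * δ / 8 * H := by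
    have h5 := not_mem_dense (by linarith : 0 < κ + δ / 8) hz22 hz3 v (hzu.trans huv)
    have h6 : C * (L - 1) ≤ nc A z v * Real.log z := by
      have h7 : C ≤ nc A z v := by rw [hC]; exact_mod_cast nc_mono hzu le_rfl
      have hL1 : 0 ≤ L - 1 := by
        have : 0 ≤ 8 * (κ + 2) / δ := by positivity
        linarith
      exact mul_le_mul h7 hlz hL1 (Nat.cast_nonneg _)
    have h7 : (κ + δ / 8) * ((v : ℝ) - z) ≤ (κ + δ / 8) * (H + K) := by
      apply mul_le_mul_of_nonneg_left (by linarith) (by linarith)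
    have h8 : (κ + δ / 8) * K ≤ (κ + 1) * K := by
      apply mul_le_mul_of_nonneg_right (by linarith) hK0.le
    have h9 : (κ + 1) * K = δ / 16 * H := by rw [hK, ← hκη]; ring
    have h10 : 0 ≤ δ * H := by positivity
    linarith
  -- lower bound
  have l1 : κ * H - 3 * δ / 8 * H ≤ C * (L + 1) := by
    by_cases hneg : κ - δ / 8 < 0
    · have h5 : κ * H ≤ δ / 8 * H := mul_le_mul_of_nonneg_right (by linarith) hH0.le
      have h6 : 0 ≤ C * (L + 1) := by
        apply mul_nonneg hC0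
        have : 0 ≤ 8 * (κ + 2) / δ := by positivity
        linarith
      have h10 : 0 ≤ δ * H := by positivity
      linarith
    push Not at hneg
    have hH16 : 16 ≤ H := by
      have h3 : δ * H ≤ 1 * H := mul_le_mul_of_nonneg_right hδ1 hH0.le
      linarith
    have hvy : (y : ℝ) < v := by linarith
    have hly0 : 0 < Real.log y := Real.log_pos (by
      have h5 : (2 : ℝ) ≤ y := by exact_mod_cast hy22
      linarith)
    have h5 : (κ - δ / 8) * ((v : ℝ) - y) ≤ nc A (y - 1) v * Real.log y := by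
      by_contra h6
      push Not at h6
      apply hy3
      refine ⟨(v : ℝ) - y, by linarith, by linarith, ?_⟩
      rw [count_closed A (by omega) (by linarith), lt_div_iff₀ hly0]
      have h7 : y + ⌊(v : ℝ) - y⌋₊ = v := by
        rw [← Nat.cast_sub hyv, Nat.floor_natCast]; omega
      rw [h7]
      exact h6
    have h6 : (nc A (y - 1) v : ℝ) * Real.log y ≤ C * (L + 1) := by
      have h7 : (nc A (y - 1) v : ℝ) ≤ C := by rw [hC]; exact_mod_cast nc_mono huy le_rfl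
      exact mul_le_mul h7 hly hly0.le hC0
    have h7 : (κ - δ / 8) * (H - K - 1) ≤ (κ - δ / 8) * ((v : ℝ) - y) :=
      mul_le_mul_of_nonneg_left (by linarith) hneg
    have h8 : (κ - δ / 8) * (K + 1) ≤ (κ + 1) * (K + 1) := by
      apply mul_le_mul_of_nonneg_right (by linarith) (by linarith)
    have h9 : (κ + 1) * (K + 1) = δ / 16 * H + (κ + 1) := by rw [hK, ← hκη]; ring
    have h10 : 0 ≤ δ * H := by positivity
    linarith
  have hL1 : 8 * (κ + 2) / δ ≤ L - 1 := by linarith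
  have l3 : C ≤ δ / 8 * H := by
    have h5 : 8 * (κ + 2) ≤ (L - 1) * δ := by rwa [div_le_iff₀ hδ] at hL1
    have h6 : 8 * (κ + 2) * C ≤ (L - 1) * δ * C := mul_le_mul_of_nonneg_right h5 hC0
    have h7 : δ * (C * (L - 1)) ≤ δ * ((κ + 2) * H) := by
      apply mul_le_mul_of_nonneg_left _ hδ.le
      have h8 : δ * H ≤ 1 * H := mul_le_mul_of_nonneg_right hδ1 hH0.le
      linarith
    have h8 : (κ + 2) * C ≤ (κ + 2) * (δ / 8 * H) := by linarith
    exact le_of_mul_le_mul_left h8 (by linarith)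
  have hf1 : C * L ≤ (κ + δ) * H := by
    have h7 : 0 ≤ δ * H := by positivity
    linarith
  have hf2 : (κ - δ) * H ≤ C * L := by
    have h7 : 0 ≤ δ * H := by positivity
    linarith
  rw [abs_le]
  have g1 : C * L / H ≤ κ + δ := by rw [div_le_iff₀ hH0]; exact hf1
  have g2 : κ - δ ≤ C * L / H := by rw [le_div_iff₀ hH0]; exact hf2
  constructor <;> linarith

end Pool.Agent.H669.PS
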